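import Mathlib
import Pool.Agent.helper6.GO.Irr

/-!
# The odd kernel lemma

Let `b` be an irreducible two-dimensional representation of a group `G` over an algebraically
closed field of characteristic zero which does not permute a pair of lines, and let `N` be a
normal subgroup such that every `b x`, `x ∈ N`, has determinant one and an eigenvalue which is a
root of unity of order dividing an odd number `L`. Then `b` is trivial on `N`.
-/

namespace Pool.Agent.GM

open Matrix Polynomial Pool.Agent.GO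

/-- `ρ` permutes two different lines. For irreducible `ρ` this says that `ρ` is dihedral: induced
from a subgroup of index two. -/
def PermutesTwoLines {Γ F : Type*} [Field F] (ρ : Γ → Matrix (Fin 2) (Fin 2) F) : Prop :=
  ∃ u w : Fin 2 → F, LinearIndependent F ![u, w] ∧ ∀ g,
    ((∃ c : F, ρ g *ᵥ u = c • u) ∧ ∃ c : F, ρ g *ᵥ w = c • w) ∨
    ((∃ c : F, ρ g *ᵥ u = c • w) ∧ ∃ c : F, ρ g *ᵥ w = c • u)

section basic

variable {F : Type*} [Field F]

theorem sq_zero_trace {n : Matrix (Fin 2) (Fin 2) F} (hn : n * n = 0) :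
    n.trace = 0 ∧ n.det = 0 := by
  have h00 := congrFun (congrFun hn 0) 0
  have h01 := congrFun (congrFun hn 0) 1
  have h10 := congrFun (congrFun hn 1) 0
  have h11 := congrFun (congrFun hn 1) 1
  simp only [Matrix.mul_apply, Fin.sum_univ_two, Matrix.zero_apply] at h00 h01 h10 h11
  rw [Matrix.trace_fin_two, Matrix.det_fin_two]
  by_cases ht : n 0 0 + n 1 1 = 0
  · refine ⟨ht, ?_⟩
    linear_combination n 0 0 * ht - h00
  · exfalso
    have h3 : n 0 1 = 0 := by
      have : n 0 1 * (n 0 0 + n 1 1) = 0 := by linear_combination h01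
      exact (mul_eq_zero.mp this).resolve_right ht
    have h4 : n 0 0 = 0 := by
      rw [h3, zero_mul, add_zero] at h00
      exact mul_self_eq_zero.mp h00
    have h5 : n 1 1 = 0 := by
      rw [h3, mul_zero, zero_add] at h11
      exact mul_self_eq_zero.mp h11
    exact ht (by rw [h4, h5, add_zero])

theorem sandwich {n : Matrix (Fin 2) (Fin 2) F} (hn : n.det = 0)
    (M : Matrix (Fin 2) (Fin 2) F) : n * M * n = (n * M).trace • n := by
  rw [Matrix.det_fin_two] at hn
  ext i j
  fin_cases i <;> fin_cases j <;>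
    simp only [Matrix.mul_apply, Fin.sum_univ_two, Matrix.smul_apply, smul_eq_mul,
      Matrix.trace_fin_two, Fin.zero_eta, Fin.isValue, Fin.mk_one]
  · linear_combination (-(M 1 1)) * hn
  · linear_combination (M 0 1) * hn
  · linear_combination (M 1 0) * hn
  · linear_combination (-(M 0 0)) * hn

theorem sq_zero_of_eig_one {h : Matrix (Fin 2) (Fin 2) F} (hdet : h.det = 1)
    (hr : h.charpoly.IsRoot 1) : (h - 1) * (h - 1) = 0 := by
  obtain ⟨-, htr⟩ := trace_eq_of_root hdet one_ne_zero hr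
  have h3 := Matrix.aeval_self_charpoly h
  rw [Matrix.charpoly_fin_two, htr, hdet] at h3
  simp only [div_one, map_add, map_sub, map_mul, map_pow, aeval_X, map_one] at h3
  have h5 : (h - 1) * (h - 1) = h ^ 2 - (1 + 1) * h + 1 := by noncomm_ring
  rw [h5, h3]

theorem root_of_fixed {h : Matrix (Fin 2) (Fin 2) F} {v : Fin 2 → F} (hv : v ≠ 0) {μ : F}
    (h1 : h *ᵥ v = μ • v) : h.charpoly.IsRoot μ :=
  (isRoot_iff_exists _ _).mpr ⟨v, hv, h1⟩

end basic

section ker

variable {F : Type*} [Field F] [CharZero F] {G : Type*} [Group G]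
  (b : G →* Matrix (Fin 2) (Fin 2) F) (N : Subgroup G)

/-- unipotent elements of `N` act trivially -/
theorem unip_odd [N.Normal] (hspan : Submodule.span F (Set.range b) = ⊤) (L : ℕ) (hL : 0 < L)
    (hN : ∀ x ∈ N, (b x).det = 1 ∧ ∃ μ : F, μ ^ L = 1 ∧ (b x).charpoly.IsRoot μ)
    (x : G) (hx : x ∈ N) (hsq : (b x - 1) * (b x - 1) = 0) : b x = 1 := by
  by_contra hne
  set n := b x - 1 with hn
  have hn0 : n ≠ 0 := sub_ne_zero.mpr hne
  obtain ⟨htr0, hdet0⟩ := sq_zero_trace hsq
  -- an element moving the line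
  obtain ⟨y, hy⟩ : ∃ y, (n * b y).trace ≠ 0 := by
    by_contra hcon
    push Not at hcon
    have hall : ∀ M : Matrix (Fin 2) (Fin 2) F, (n * M).trace = 0 := by
      intro M
      have hM : M ∈ Submodule.span F (Set.range b) := by rw [hspan]; trivial
      induction hM using Submodule.span_induction with
      | mem M hM =>
        obtain ⟨y, rfl⟩ := hM
        exact hcon y
      | zero => simp
      | add M M' _ _ hM hM' => rw [mul_add, Matrix.trace_add, hM, hM', add_zero]
      | smul c M _ hM => rw [mul_smul_comm, Matrix.trace_smul, hM, smul_zero]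
    apply hn0
    ext i j
    have := hall (Matrix.single j i 1)
    fin_cases i <;> fin_cases j <;>
      simpa [Matrix.trace_fin_two, Matrix.mul_apply, Matrix.single_apply] using this
  have hdy : (b y).det ≠ 0 := hom_det_ne b y
  have hbyinv : b y⁻¹ = (b y).det⁻¹ • (b y).adjugate := by
    have h1 : b y⁻¹ = (b y)⁻¹ := by rw [Matrix.inv_eq_right_inv (hom_mul_inv b y)]
    rw [h1, Matrix.inv_def, Ring.inverse_eq_inv']
  -- the trace of `n n'`
  have htr : (n * (b y * n * b y⁻¹)).trace = -((n * b y).trace ^ 2) / (b y).det := by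
    have h1 : n * (b y * n * b y⁻¹) = (n * b y * n) * b y⁻¹ := by
      simp only [mul_assoc]
    rw [h1, sandwich hdet0, smul_mul_assoc, Matrix.trace_smul, hbyinv, mul_smul_comm,
      Matrix.trace_smul, smul_eq_mul, smul_eq_mul]
    have h2 : (n * (b y).adjugate).trace = -(n * b y).trace := by
      have h3 : (b y).adjugate = (b y).trace • 1 - b y := by
        ext i j
        fin_cases i <;> fin_cases j <;>
          simp [Matrix.adjugate_fin_two, Matrix.trace_fin_two]
      rw [h3, mul_sub, Matrix.trace_sub, mul_smul_comm, mul_one, Matrix.trace_smul, htr0,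
        smul_zero, zero_sub]
    rw [h2]
    field_simp
  set n' := b y * n * b y⁻¹ with hn'
  set τ := (n * n').trace with hτ
  have hτ0 : τ ≠ 0 := by
    rw [htr]
    exact div_ne_zero (neg_ne_zero.mpr (pow_ne_zero _ hy)) hdy
  have htr' : n'.trace = 0 := by
    rw [hn', Matrix.trace_mul_comm, ← mul_assoc, hom_inv_mul, one_mul, htr0]
  -- the elements `x ^ k * (y x y⁻¹)`
  let T : Set F := (fun μ : F => μ + 1 / μ) '' ((X ^ L - 1 : F[X]).rootSet F)
  have hT : T.Finite := (Polynomial.rootSet_finite _ _).image _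
  have hmem : ∀ k : ℕ, (2 : F) + k * τ ∈ T := by
    intro k
    have hbx : b x = 1 + n := by rw [hn]; abel
    have hxk : b (x ^ k) = 1 + (k : F) • n := by
      rw [map_pow, hbx, one_add_pow_of_sq hsq]
    have hyx : b (y * x * y⁻¹) = 1 + n' := by
      rw [map_mul, map_mul, hbx, mul_add, mul_one, add_mul, hom_mul_inv]
    have hz : x ^ k * (y * x * y⁻¹) ∈ N :=
      N.mul_mem (N.pow_mem hx k) (Subgroup.Normal.conj_mem inferInstance x hx y)
    obtain ⟨hd, μ, hμL, hμ⟩ := hN _ hz
    obtain ⟨hμ0, htrz⟩ := trace_eq_of_root hd one_ne_zero hμ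
    have h1 : (b (x ^ k * (y * x * y⁻¹))).trace = 2 + k * τ := by
      rw [map_mul, hxk, hyx, add_mul, one_mul, mul_add, mul_one, smul_mul_assoc,
        Matrix.trace_add, Matrix.trace_add, Matrix.trace_add, Matrix.trace_smul,
        Matrix.trace_smul, htr', htr0, Matrix.trace_one]
      simp [hτ]
    refine ⟨μ, ?_, ?_⟩
    · rw [Polynomial.mem_rootSet]
      refine ⟨Polynomial.X_pow_sub_C_ne_zero hL (1 : F), ?_⟩
      simp [hμL]
    · show μ + 1 / μ = _
      rw [← htrz, h1]
  have hinf : (Set.range fun k : ℕ => (2 : F) + k * τ).Infinite := by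
    apply Set.infinite_range_of_injective
    intro k l hkl
    have h1 : (k : F) * τ = l * τ := by simpa using hkl
    exact_mod_cast mul_right_cancel₀ hτ0 h1
  exact hinf (hT.subset (by rintro _ ⟨k, rfl⟩; exact hmem k))

variable {b N} in
/-- the eigenvalues of nontrivial elements are different -/
theorem dist_eig [N.Normal] (hspan : Submodule.span F (Set.range b) = ⊤) (L : ℕ) (hL : Odd L)
    (hN : ∀ x ∈ N, (b x).det = 1 ∧ ∃ μ : F, μ ^ L = 1 ∧ (b x).charpoly.IsRoot μ)
    (x : G) (hx : x ∈ N) (hne : b x ≠ 1) :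
    ∃ μ : F, μ ≠ 0 ∧ μ ^ L = 1 ∧ μ ≠ μ⁻¹ ∧ (b x).charpoly = (X - C μ) * (X - C μ⁻¹) := by
  obtain ⟨hd, μ, hμL, hμ⟩ := hN x hx
  obtain ⟨hμ0, htr⟩ := trace_eq_of_root hd one_ne_zero hμ
  refine ⟨μ, hμ0, hμL, ?_, ?_⟩
  · intro h
    have h1 : μ ^ 2 = 1 := by
      rw [pow_two]
      nth_rewrite 2 [h]
      exact mul_inv_cancel₀ hμ0
    obtain ⟨k, rfl⟩ := hL
    rw [pow_succ, pow_mul, h1, one_pow, one_mul] at hμL
    subst hμL
    exact hne (unip_odd b N hspan _ (Nat.succ_pos _) hN x hx (sq_zero_of_eig_one hd hμ))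
  · rw [Matrix.charpoly_fin_two, htr, hd, one_div]
    have h2 : C μ * C μ⁻¹ = (1 : F[X]) := by rw [← C_mul, mul_inv_cancel₀ hμ0, C_1]
    rw [C_add, C_1]
    linear_combination (-1 : F[X]) * h2

theorem pow_eq_one_N [N.Normal] (hspan : Submodule.span F (Set.range b) = ⊤) (L : ℕ)
    (hL : Odd L)
    (hN : ∀ x ∈ N, (b x).det = 1 ∧ ∃ μ : F, μ ^ L = 1 ∧ (b x).charpoly.IsRoot μ)
    (x : G) (hx : x ∈ N) : (b x) ^ L = 1 := by
  by_cases hne : b x = 1
  · rw [hne, one_pow]
  obtain ⟨μ, hμ0, hμL, hμ, hch⟩ := dist_eig hspan L hL hN x hx hne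
  have hdvd : (b x).charpoly ∣ X ^ L - 1 := by
    rw [hch]
    apply IsCoprime.mul_dvd
    · exact Polynomial.isCoprime_X_sub_C_of_isUnit_sub (sub_ne_zero.mpr hμ).isUnit
    · rw [Polynomial.dvd_iff_isRoot]
      simp [hμL]
    · rw [Polynomial.dvd_iff_isRoot]
      simp [hμL]
  obtain ⟨q, hq⟩ := hdvd
  have h1 := congrArg (aeval (b x)) hq
  rw [map_mul, Matrix.aeval_self_charpoly, zero_mul, map_sub, map_pow, aeval_X, map_one,
    sub_eq_zero] at h1
  exact h1

end ker

end Pool.Agent.GM
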