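import Mathlib
import Pool.Agent.helper1.GM.Kern

/-!
# Finite subgroups of odd exponent of `SL₂` are not irreducible
-/

namespace Pool.Agent.GM

open Matrix Polynomial Pool.Agent.GO

section avg

variable {F : Type*} [Field F] {G : Type*} [Group G]
  (b : G →* Matrix (Fin 2) (Fin 2) F)

theorem commutes_all (hspan : Submodule.span F (Set.range b) = ⊤)
    (C : Matrix (Fin 2) (Fin 2) F) (hC : ∀ x, b x * C = C * b x) :
    C 0 1 = 0 ∧ C 1 0 = 0 ∧ C 0 0 = C 1 1 := by
  have hcent : ∀ M : Matrix (Fin 2) (Fin 2) F, C * M = M * C := by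
    intro M
    have hM : M ∈ Submodule.span F (Set.range b) := by rw [hspan]; trivial
    induction hM using Submodule.span_induction with
    | mem M hM =>
      obtain ⟨y, rfl⟩ := hM
      exact (hC y).symm
    | zero => simp
    | add M N _ _ hM hN => rw [mul_add, add_mul, hM, hN]
    | smul c M _ hM => rw [mul_smul_comm, smul_mul_assoc, hM]
  have h01 := hcent (Matrix.single 0 1 1)
  have h10 := hcent (Matrix.single 1 0 1)
  have e1 := congrFun (congrFun h01 0) 1
  have e2 := congrFun (congrFun h01 0) 0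
  have e3 := congrFun (congrFun h10 0) 0
  simp [Matrix.mul_apply, Matrix.single_apply] at e1 e2 e3
  exact ⟨e3, e2.symm, e1⟩

omit [Group G] in
theorem trace_mul_trace (A A' : Matrix (Fin 2) (Fin 2) F) : A.trace * A'.trace =
    (A * Matrix.single 0 0 1 * A' : Matrix (Fin 2) (Fin 2) F) 0 0 + (A * Matrix.single 0 1 1 * A' : Matrix (Fin 2) (Fin 2) F) 0 1 +
    (A * Matrix.single 1 0 1 * A' : Matrix (Fin 2) (Fin 2) F) 1 0 + (A * Matrix.single 1 1 1 * A' : Matrix (Fin 2) (Fin 2) F) 1 1 := by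
  rw [Matrix.trace_fin_two, Matrix.trace_fin_two]
  simp [Matrix.mul_apply, Fin.sum_univ_two, Matrix.single_apply]
  ring

/-- the finite averaging argument -/
theorem avg_contra [CharZero F] [Finite (MonoidHom.range b.toHomUnits)]
    (hspan : Submodule.span F (Set.range b) = ⊤) (L : ℕ) (hL : Odd L)
    (hdet : ∀ x, (b x).det = 1) (hpow : ∀ x, (b x) ^ L = 1)
    (hfix : ∀ v : Fin 2 → F, (∀ x, b x *ᵥ v = v) → v = 0) : False := by
  classical
  set H := MonoidHom.range b.toHomUnits with hH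
  have : Fintype H := Fintype.ofFinite H
  have hval : ∀ h : H, ∃ x, b x = h.1.1 := by
    rintro ⟨h, x, rfl⟩
    exact ⟨x, rfl⟩
  have hinv : ∀ h : H, ∃ x, b x = h.1.1 ∧ b x⁻¹ = (h⁻¹).1.1 := by
    rintro ⟨h, x, rfl⟩
    refine ⟨x, rfl, ?_⟩
    show b x⁻¹ = ((b.toHomUnits x)⁻¹).1
    rw [← map_inv]
    rfl
  have hdH : ∀ h : H, (h.1.1).det = 1 := by
    intro h
    obtain ⟨x, hx⟩ := hval h
    rw [← hx]
    exact hdet x
  -- the sum of all elements is zero
  have hP : ∑ h : H, (h.1.1) = 0 := by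
    have hk : ∀ x, b x * ∑ h : H, (h.1.1) = ∑ h : H, (h.1.1) := by
      intro x
      let k : H := ⟨b.toHomUnits x, x, rfl⟩
      rw [Finset.mul_sum]
      refine Fintype.sum_equiv (Equiv.mulLeft k) _ _ ?_
      intro h
      rfl
    have hv : ∀ v : Fin 2 → F, (∑ h : H, (h.1.1)) *ᵥ v = 0 := by
      intro v
      apply hfix
      intro x
      rw [Matrix.mulVec_mulVec, hk]
    ext i j
    have := congrFun (hv (Pi.single j 1)) i
    rw [Matrix.mulVec_single_one] at this
    exact this
  have htr0 : ∑ h : H, (h.1.1).trace = 0 := by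
    rw [← Matrix.trace_sum, hP, Matrix.trace_zero]
  -- squaring is a bijection
  have hpowH : ∀ h : H, h ^ L = 1 := by
    intro h
    obtain ⟨x, hx⟩ := hval h
    apply Subtype.ext
    apply Units.ext
    show (h.1.1) ^ L = 1
    rw [← hx]
    exact hpow x
  have hsq : Function.Bijective (fun h : H => h ^ 2) := by
    rw [← Finite.injective_iff_bijective]
    intro h k hhk
    obtain ⟨l, rfl⟩ := hL
    have h1 : ∀ h : H, (h ^ 2) ^ (l + 1) = h := by
      intro h
      rw [← pow_mul, show 2 * (l + 1) = (2 * l + 1) + 1 by ring, pow_succ, hpowH, one_mul]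
    have h2 : h ^ 2 = k ^ 2 := hhk
    rw [← h1 h, h2, h1 k]
  have hsq0 : ∑ h : H, ((h ^ 2 : H).1.1).trace = 0 := by
    rw [← htr0]
    exact Fintype.sum_bijective _ hsq _ _ fun _ => rfl
  have htrsq : ∀ h : H, ((h ^ 2 : H).1.1).trace = (h.1.1).trace ^ 2 - 2 := by
    intro h
    have h1 : (h ^ 2 : H).1.1 = h.1.1 * h.1.1 := by
      show (h.1.1) ^ 2 = _
      rw [pow_two]
    have h2 := hdH h
    rw [Matrix.det_fin_two] at h2
    rw [h1, Matrix.trace_fin_two, Matrix.trace_fin_two]
    simp only [Matrix.mul_apply, Fin.sum_univ_two]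
    linear_combination (-2 : F) * h2
  have hsum2 : ∑ h : H, (h.1.1).trace ^ 2 = 2 * Fintype.card H := by
    have h1 : ∑ h : H, ((h.1.1).trace ^ 2 - 2) = 0 := by
      rw [← hsq0]
      exact Finset.sum_congr rfl fun h _ => (htrsq h).symm
    rw [Finset.sum_sub_distrib, sub_eq_zero] at h1
    rw [h1]
    simp [mul_comm]
  -- averaging over conjugation
  let Cv : Matrix (Fin 2) (Fin 2) F → Matrix (Fin 2) (Fin 2) F :=
    fun M => ∑ h : H, h.1.1 * M * (h⁻¹).1.1
  have hinvmul : ∀ h : H, (h⁻¹).1.1 * h.1.1 = 1 := by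
    intro h
    have : (h⁻¹ * h : H).1.1 = 1 := by rw [inv_mul_cancel]; rfl
    exact this
  have hcomm : ∀ M x, b x * Cv M = Cv M * b x := by
    intro M x
    let k : H := ⟨b.toHomUnits x, x, rfl⟩
    have h1 : b x * Cv M = ∑ h : H, (k * h).1.1 * M * ((k * h)⁻¹).1.1 * b x := by
      rw [Finset.mul_sum]
      apply Finset.sum_congr rfl
      intro h _
      have h2 : ((k * h)⁻¹).1.1 * b x = (h⁻¹).1.1 := by
        have h3 : ((k * h)⁻¹ * k : H) = h⁻¹ := by rw [_root_.mul_inv_rev]; group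
        exact congrArg (fun z : H => z.1.1) h3
      have h4 : (k * h).1.1 = b x * h.1.1 := rfl
      rw [mul_assoc ((k * h).1.1 * M), h2, h4]
      simp only [mul_assoc]
    rw [h1, ← Finset.sum_mul]
    congr 1
    exact Fintype.sum_equiv (Equiv.mulLeft k) _ _ fun h => rfl
  have htrC : ∀ M, (Cv M).trace = Fintype.card H * M.trace := by
    intro M
    simp only [Cv, Matrix.trace_sum]
    have : ∀ h : H, (h.1.1 * M * (h⁻¹).1.1).trace = M.trace := by
      intro h
      rw [Matrix.trace_mul_comm, ← mul_assoc, hinvmul, one_mul]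
    rw [Finset.sum_congr rfl fun h _ => this h]
    simp
  have hCdiag : ∀ M, (Cv M) 0 1 = 0 ∧ (Cv M) 1 0 = 0 ∧ (Cv M) 0 0 = (Cv M) 1 1 := fun M =>
    commutes_all b hspan (Cv M) (hcomm M)
  have hC00 : ∀ M, 2 * (Cv M) 0 0 = Fintype.card H * M.trace := by
    intro M
    obtain ⟨-, -, h3⟩ := hCdiag M
    rw [← htrC M, Matrix.trace_fin_two, ← h3]
    ring
  have htrinv : ∀ h : H, ((h⁻¹).1.1).trace = (h.1.1).trace := by
    intro h
    obtain ⟨x, hx, hxi⟩ := hinv h
    rw [← hxi, trace_inv_two, hdet, div_one, hx]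
  have hexp : ∀ h : H, (h.1.1).trace ^ 2 =
      (h.1.1 * Matrix.single 0 0 1 * (h⁻¹).1.1 : Matrix (Fin 2) (Fin 2) F) 0 0 +
      (h.1.1 * Matrix.single 0 1 1 * (h⁻¹).1.1 : Matrix (Fin 2) (Fin 2) F) 0 1 +
      (h.1.1 * Matrix.single 1 0 1 * (h⁻¹).1.1 : Matrix (Fin 2) (Fin 2) F) 1 0 +
      (h.1.1 * Matrix.single 1 1 1 * (h⁻¹).1.1 : Matrix (Fin 2) (Fin 2) F) 1 1 := by
    intro h
    rw [pow_two, ← trace_mul_trace, htrinv h]
  have hsum1 : ∑ h : H, (h.1.1).trace ^ 2 = Fintype.card H := by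
    have h1 : ∑ h : H, (h.1.1).trace ^ 2 = (Cv (Matrix.single 0 0 1)) 0 0 +
        (Cv (Matrix.single 0 1 1)) 0 1 + (Cv (Matrix.single 1 0 1)) 1 0 +
        (Cv (Matrix.single 1 1 1)) 1 1 := by
      rw [Finset.sum_congr rfl fun h _ => hexp h]
      simp only [Finset.sum_add_distrib, Cv, Matrix.sum_apply]
    obtain ⟨h01, -, -⟩ := hCdiag (Matrix.single 0 1 1)
    obtain ⟨-, h10, -⟩ := hCdiag (Matrix.single 1 0 1)
    obtain ⟨-, -, h11⟩ := hCdiag (Matrix.single 1 1 1)
    rw [h1, h01, h10, ← h11]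
    have h2 := hC00 (Matrix.single 0 0 1)
    have h3 := hC00 (Matrix.single 1 1 1)
    have t0 : (Matrix.single 0 0 1 : Matrix (Fin 2) (Fin 2) F).trace = 1 := by simp
    have t1 : (Matrix.single 1 1 1 : Matrix (Fin 2) (Fin 2) F).trace = 1 := by simp
    rw [t0] at h2
    rw [t1] at h3
    have h4 : (2 : F) ≠ 0 := two_ne_zero
    have h5 : 2 * ((Cv (Matrix.single 0 0 1)) 0 0 + (Cv (Matrix.single 1 1 1)) 0 0) =
        2 * (Fintype.card H : F) := by
      rw [mul_add, h2, h3]; ring
    have h6 := mul_left_cancel₀ h4 h5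
    rw [← h6]
    ring
  have hfin : (Fintype.card H : F) = 0 := by
    have := hsum2.symm.trans hsum1
    linear_combination this
  have hcard : Fintype.card H ≠ 0 := Fintype.card_ne_zero
  exact hcard (by exact_mod_cast hfin)

end avg

section fin

variable {F : Type*} [Field F] {G : Type*} [Group G]
  (b : G →* Matrix (Fin 2) (Fin 2) F)

theorem exists_finite_spanning (hspan : Submodule.span F (Set.range b) = ⊤) :
    ∃ t : Finset G, Submodule.span F (b '' t) = ⊤ := by
  classical
  have hfg : (Submodule.span F (Set.range b)).FG := by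
    rw [hspan]
    exact Module.Finite.fg_top
  obtain ⟨s, hs, hs'⟩ := Submodule.fg_span_iff_fg_span_finset_subset _ |>.mp hfg
  choose g hg using fun m : s => hs m.2
  refine ⟨Finset.univ.image g, ?_⟩
  rw [eq_top_iff, ← hspan, hs']
  apply Submodule.span_mono
  intro m hm
  refine ⟨g ⟨m, hm⟩, ?_, hg ⟨m, hm⟩⟩
  simp

/-- a representation whose image spans all matrices and has finitely many traces is finite -/
theorem finite_of_traces (hspan : Submodule.span F (Set.range b) = ⊤) (T : Set F)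
    (hT : T.Finite) (htr : ∀ x, (b x).trace ∈ T) : Finite (MonoidHom.range b.toHomUnits) := by
  classical
  have := hT.to_subtype
  obtain ⟨t, hts⟩ := exists_finite_spanning b hspan
  have hfin := t.finite_toSet.to_subtype
  let f : MonoidHom.range b.toHomUnits → (t → T) := fun h s =>
    ⟨(h.1.1 * b s.1).trace, by
      obtain ⟨h, x, rfl⟩ := h
      have : ((b.toHomUnits x).1 * b s.1).trace = (b (x * s.1)).trace := by
        rw [map_mul]; rfl
      show ((b.toHomUnits x).1 * b s.1).trace ∈ T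
      rw [this]
      exact htr _⟩
  apply Finite.of_injective f
  intro h k hhk
  have h1 : ∀ s ∈ t, (h.1.1 * b s).trace = (k.1.1 * b s).trace := by
    intro s hs
    exact congrArg Subtype.val (congrFun hhk ⟨s, hs⟩)
  have h2 : ∀ M : Matrix (Fin 2) (Fin 2) F, (h.1.1 * M).trace = (k.1.1 * M).trace := by
    intro M
    have hM : M ∈ Submodule.span F (b '' t) := by rw [hts]; trivial
    induction hM using Submodule.span_induction with
    | mem M hM =>
      obtain ⟨s, hs, rfl⟩ := hM
      exact h1 s hs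
    | zero => simp
    | add M M' _ _ hM hM' => rw [mul_add, mul_add, Matrix.trace_add, Matrix.trace_add, hM, hM']
    | smul c M _ hM => rw [mul_smul_comm, mul_smul_comm, Matrix.trace_smul, Matrix.trace_smul, hM]
  apply Subtype.ext
  apply Units.ext
  ext i j
  have := h2 (Matrix.single j i 1)
  fin_cases i <;> fin_cases j <;>
    simpa [Matrix.trace_fin_two, Matrix.mul_apply, Matrix.single_apply] using this

end fin

end Pool.Agent.GM
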