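import Mathlib
import Pool.Agent.helper6.GO.Irr

/-!
# A general criterion

If the trace of `ρ` is integral over the algebra generated by the matrix coefficients of `W` and
of its dual, and on the closure group of `W ⊕ ρ` the kernel of `W` is contained in the kernel of
`ρ`, then the matrix coefficients of `ρ` belong to that algebra. (Adapted from helper6's proof of
`coef_mem_alg`, which is the case of a common eigenvalue.)
-/

namespace Pool.Agent.GM

open Matrix Polynomial Pool.Agent.GO

section crit

variable {F : Type*} [Field F] {Γ : Type*} [Group Γ]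
variable {ι : Type*} [Fintype ι] [DecidableEq ι] (V : Γ →* Matrix ι ι F)
  (ρ : Γ →* Matrix (Fin 2) (Fin 2) F)

theorem coef_integral_of (hspan : Submodule.span F (Set.range ρ) = ⊤)
    (htr : IsIntegral (alg V) (fun g => (ρ g).trace)) (i j : Fin 2) :
    IsIntegral (alg V) (fun g => ρ g i j) := by
  have h1 : ∀ M : Matrix (Fin 2) (Fin 2) F, IsIntegral (alg V) (fun g => (ρ g * M).trace) := by
    intro M
    have hM : M ∈ Submodule.span F (Set.range ρ) := by rw [hspan]; trivial
    induction hM using Submodule.span_induction with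
    | mem M hM =>
      obtain ⟨h, rfl⟩ := hM
      have := int_rt V h htr
      have e : rt h (fun g => (ρ g).trace) = fun g => (ρ g * ρ h).trace := by
        ext g; rw [rt_apply, map_mul]
      rwa [e] at this
    | zero =>
      have : (fun g => (ρ g * 0).trace) = (0 : Γ → F) := by ext g; simp
      rw [this]
      exact isIntegral_zero
    | add M N _ _ hM hN =>
      have : (fun g => (ρ g * (M + N)).trace) =
          (fun g => (ρ g * M).trace) + (fun g => (ρ g * N).trace) := by
        ext g
        simp only [Pi.add_apply, mul_add, Matrix.trace_add]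
      rw [this]
      exact hM.add hN
    | smul c M _ hM =>
      have : (fun g => (ρ g * (c • M)).trace) = c • (fun g => (ρ g * M).trace) := by
        ext g
        simp only [Pi.smul_apply, mul_smul_comm, Matrix.trace_smul]
      rw [this]
      exact int_smul c hM
  have h2 : (fun g => ρ g i j) = fun g => (ρ g * Matrix.single j i 1).trace := by
    ext g
    fin_cases i <;> fin_cases j <;>
      simp [Matrix.trace_fin_two, Matrix.mul_apply, Matrix.single_apply]
  rw [h2]
  exact h1 _

theorem alg_dsum_integral_of (hspan : Submodule.span F (Set.range ρ) = ⊤)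
    (htr : IsIntegral (alg V) (fun g => (ρ g).trace)) (f : Γ → F) (hf : f ∈ alg (dsum V ρ)) :
    IsIntegral (alg V) f := by
  unfold alg at hf
  induction hf using Algebra.adjoin_induction with
  | mem x hx =>
    rcases hx with ⟨⟨i | i, j | j⟩, rfl⟩ | ⟨⟨i | i, j | j⟩, rfl⟩
    · exact int_of_mem (coef_mem V i j)
    · exact isIntegral_zero
    · exact isIntegral_zero
    · exact coef_integral_of V ρ hspan htr i j
    · exact int_of_mem (coefInv_mem V i j)
    · exact isIntegral_zero
    · exact isIntegral_zero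
    · exact int_iv V (coef_integral_of V ρ hspan htr i j)
  | algebraMap r => exact int_of_mem (Subalgebra.algebraMap_mem _ r)
  | add x y _ _ hx hy => exact hx.add hy
  | mul x y _ _ hx hy => exact hx.mul hy

/-- a character of the big algebra extending evaluation at `g` on the coefficients of `V` is
evaluation at `g` -/
theorem unique_ext_of
    (hker : ∀ x : chGroup (dsum V ρ), blkA V ρ x = 1 → blkB V ρ x = 1)
    (g : Γ) (φ : alg (dsum V ρ) →ₐ[F] F)
    (hφ : (matOf (dsum V ρ) φ).toBlocks₁₁ = V g) : φ = evG (dsum V ρ) g := by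
  set x := chUnit (dsum V ρ) (evG (dsum V ρ) g⁻¹) * chUnit (dsum V ρ) φ with hx
  have ha1 : blkA V ρ (chUnit (dsum V ρ) (evG (dsum V ρ) g⁻¹)) = V g⁻¹ := by ext i j; rfl
  have hb1 : blkB V ρ (chUnit (dsum V ρ) (evG (dsum V ρ) g⁻¹)) = ρ g⁻¹ := by ext i j; rfl
  have ha2 : blkA V ρ (chUnit (dsum V ρ) φ) = V g := hφ
  have hax : blkA V ρ x = 1 := by
    rw [hx, map_mul, ha1, ha2, ← map_mul, inv_mul_cancel, map_one]
  have hbx := hker x hax
  rw [hx, map_mul, hb1] at hbx
  have hb2 : blkB V ρ (chUnit (dsum V ρ) φ) = ρ g := by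
    calc blkB V ρ (chUnit (dsum V ρ) φ) = (ρ g * ρ g⁻¹) * blkB V ρ (chUnit (dsum V ρ) φ) := by
          rw [hom_mul_inv, one_mul]
      _ = ρ g * (ρ g⁻¹ * blkB V ρ (chUnit (dsum V ρ) φ)) := by rw [mul_assoc]
      _ = ρ g := by rw [hbx, mul_one]
  have hb3 : (matOf (dsum V ρ) φ).toBlocks₂₂ = ρ g := hb2
  apply ext_gen
  rw [matOf_blocks V ρ φ, hφ, hb3, matOf_ev]
  rfl

theorem exists_den_of [IsAlgClosed F] [CharZero F]
    (hspan : Submodule.span F (Set.range ρ) = ⊤)
    (htr : IsIntegral (alg V) (fun g => (ρ g).trace))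
    (hker : ∀ x : chGroup (dsum V ρ), blkA V ρ x = 1 → blkB V ρ x = 1) (i j : Fin 2) :
    ∃ s : Γ → F, s ∈ alg V ∧ s 1 ≠ 0 ∧ (fun g => s g * ρ g i j) ∈ alg V := by
  let A := alg V
  let B := alg (dsum V ρ)
  have hAB : A ≤ B := alg_le_dsum V ρ
  let _ : Algebra A B := (Subalgebra.inclusion hAB).toRingHom.toAlgebra
  have : IsScalarTower F A B := IsScalarTower.of_algebraMap_eq fun _ => rfl
  have hft : Algebra.FiniteType F B := finiteType_alg (dsum V ρ)
  have hft' : Algebra.FiniteType A B := Algebra.FiniteType.of_restrictScalars_finiteType F A B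
  let incl : B →ₐ[A] (Γ → F) := { B.val.toRingHom with commutes' := fun _ => rfl }
  have hinj : Function.Injective incl := Subtype.val_injective
  have hint : Algebra.IsIntegral A B := ⟨fun b =>
    (isIntegral_algHom_iff incl hinj).mp (alg_dsum_integral_of V ρ hspan htr b.1 b.2)⟩
  have hfinite : Module.Finite A B := Algebra.IsIntegral.finite
  have hu : ∀ g, ∀ φ : B →ₐ[F] F, (∀ a : A, φ (algebraMap A B a) = evG V g a) →
      ∀ b : B, φ b = evG (dsum V ρ) g b := by
    intro g φ hφ b
    have h1 : φ = evG (dsum V ρ) g := by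
      apply unique_ext_of V ρ hker g φ
      ext i j
      exact hφ (gen V i j)
    rw [h1]
  have hdim : ∀ g, Module.finrank F (B ⧸ fib B (evG V) g) =
      Module.finrank F (B ⧸ fib B (evG V) 1) := by
    intro g
    have hmap : fib B (evG V) 1 = (fib B (evG V) g).map (ltE (dsum V ρ) g : B →+* B) := by
      unfold fib
      rw [Ideal.map_map]
      have hc : (ltE (dsum V ρ) g : B →+* B).comp (algebraMap A B) =
          (algebraMap A B).comp (ltE V g : A →+* A) := by
        ext a
        rfl
      rw [hc, ← Ideal.map_map]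
      congr 1
      have h1 : RingHom.ker (evG V g) =
          (RingHom.ker (evG V 1)).comap (ltE V g : A →+* A) := by
        ext a
        rw [Ideal.mem_comap, RingHom.mem_ker, RingHom.mem_ker]
        show a.1 g = 0 ↔ a.1 (g * 1) = 0
        rw [mul_one]
      rw [h1, Ideal.map_comap_of_surjective]
      exact (ltE V g).surjective
    exact (Ideal.quotientEquivAlg _ _ (ltE (dsum V ρ) g) hmap).toLinearEquiv.finrank_eq
  obtain ⟨s, a, hs, ha⟩ := exists_denominator (F := F) (A := A) (B := B) (evG V)
    (evG (dsum V ρ)) (fun _ _ => rfl) hu hdim (gen (dsum V ρ) (Sum.inr i) (Sum.inr j))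
  refine ⟨s.1, s.2, hs, ?_⟩
  have h2 : (fun g => s.1 g * ρ g i j) = a.1 := by
    ext g
    exact ha g
  rw [h2]
  exact a.2

/-- The matrix coefficients of `ρ` belong to the algebra generated by those of `V` and its
dual. -/
theorem coef_mem_alg_of [IsAlgClosed F] [CharZero F]
    (hspan : Submodule.span F (Set.range ρ) = ⊤)
    (htr : IsIntegral (alg V) (fun g => (ρ g).trace))
    (hker : ∀ x : chGroup (dsum V ρ), blkA V ρ x = 1 → blkB V ρ x = 1) (i j : Fin 2) :
    (fun g => ρ g i j) ∈ alg V := by
  choose s hsA hs1 hsx using fun p : Fin 2 × Fin 2 => exists_den_of V ρ hspan htr hker p.1 p.2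
  let J : Submodule F (Γ → F) :=
    { carrier := {f | f ∈ alg V ∧ ∀ p : Fin 2 × Fin 2, (fun g => f g * ρ g p.1 p.2) ∈ alg V}
      add_mem' := by
        rintro f f' ⟨h1, h2⟩ ⟨h1', h2'⟩
        refine ⟨Subalgebra.add_mem _ h1 h1', fun p => ?_⟩
        have : (fun g => (f + f') g * ρ g p.1 p.2) =
            (fun g => f g * ρ g p.1 p.2) + (fun g => f' g * ρ g p.1 p.2) := by
          ext g; simp [add_mul]
        rw [this]
        exact Subalgebra.add_mem _ (h2 p) (h2' p)
      zero_mem' := by
        refine ⟨Subalgebra.zero_mem _, fun p => ?_⟩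
        have : (fun g => (0 : Γ → F) g * ρ g p.1 p.2) = 0 := by ext g; simp
        rw [this]
        exact Subalgebra.zero_mem _
      smul_mem' := by
        rintro c f ⟨h1, h2⟩
        refine ⟨Subalgebra.smul_mem _ h1 c, fun p => ?_⟩
        have : (fun g => (c • f) g * ρ g p.1 p.2) = c • (fun g => f g * ρ g p.1 p.2) := by
          ext g; simp [mul_assoc]
        rw [this]
        exact Subalgebra.smul_mem _ (h2 p) c }
  have hJA : ∀ f ∈ alg V, ∀ j ∈ J, f * j ∈ J := by
    rintro f hf j ⟨h1, h2⟩
    refine ⟨Subalgebra.mul_mem _ hf h1, fun p => ?_⟩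
    have : (fun g => (f * j) g * ρ g p.1 p.2) = f * (fun g => j g * ρ g p.1 p.2) := by
      ext g; simp [mul_assoc]
    rw [this]
    exact Subalgebra.mul_mem _ hf (h2 p)
  have hJlt : ∀ f ∈ J, ∀ h, lt h f ∈ J := by
    rintro f ⟨h1, h2⟩ h
    refine ⟨alg_lt V h h1, fun p => ?_⟩
    have h3 : (fun g => lt h f g * ρ g p.1 p.2) =
        fun g => ∑ k, ρ h⁻¹ p.1 k * (lt h (fun g => f g * ρ g k p.2)) g := by
      ext g
      have h4 : ρ g = ρ h⁻¹ * ρ (h * g) := by rw [← map_mul, inv_mul_cancel_left]
      rw [h4, Matrix.mul_apply, Finset.mul_sum]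
      apply Finset.sum_congr rfl
      intro k _
      simp only [lt_apply]
      ring
    rw [h3]
    exact sum_mem_fun _ _ (fun k => lt h (fun g => f g * ρ g k p.2))
      fun k _ => alg_lt V h (h2 (k, p.2))
  have hprodA : ∀ t : Finset (Fin 2 × Fin 2), (∏ p ∈ t, s p) ∈ alg V := fun t =>
    Subalgebra.prod_mem _ fun p _ => hsA p
  have hS : (∏ p, s p) ∈ J := by
    refine ⟨hprodA _, fun p => ?_⟩
    have : (fun g => (∏ p, s p) g * ρ g p.1 p.2) =
        (∏ q ∈ Finset.univ.erase p, s q) * (fun g => s p g * ρ g p.1 p.2) := by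
      ext g
      rw [← Finset.prod_erase_mul Finset.univ s (Finset.mem_univ p)]
      simp only [Pi.mul_apply]
      ring
    rw [this]
    exact Subalgebra.mul_mem _ (hprodA _) (hsx p)
  have hS1 : (∏ p, s p) 1 ≠ 0 := by
    rw [Finset.prod_apply]
    exact Finset.prod_ne_zero_iff.mpr fun p _ => hs1 p
  have h1 := one_mem_of_stable (alg V) (fun f hf h => alg_rt V h hf) (fun f hf => alg_iv V hf)
    J hJA (∏ p, s p) (hprodA _) (LF_alg V (hprodA _)) (fun h => hJlt _ hS h) hS1
  have h2 := h1.2 (i, j)
  simpa using h2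

end crit

end Pool.Agent.GM
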