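import Mathlib
import Pool.Agent.helper1.GM.Avg

/-!
# The odd kernel lemma: end of the proof
-/

namespace Pool.Agent.GM

open Matrix Polynomial Pool.Agent.GO

section ker

variable {F : Type*} [Field F] [CharZero F] {G : Type*} [Group G]
  (b : G →* Matrix (Fin 2) (Fin 2) F) (N : Subgroup G)

/-- a common eigenline of `N` forces commutativity -/
theorem comm_of_line [N.Normal] (hspan : Submodule.span F (Set.range b) = ⊤) (L : ℕ)
    (hL : Odd L)
    (hN : ∀ x ∈ N, (b x).det = 1 ∧ ∃ μ : F, μ ^ L = 1 ∧ (b x).charpoly.IsRoot μ)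
    (u : Fin 2 → F) (hu : u ≠ 0) (hline : ∀ x ∈ N, ∃ c : F, b x *ᵥ u = c • u)
    (x y : G) (hx : x ∈ N) (hy : y ∈ N) : b x * b y = b y * b x := by
  obtain ⟨c, hc⟩ := hline x hx
  obtain ⟨d, hd⟩ := hline y hy
  have hinvx : ∀ z ∈ N, ∀ e : F, b z *ᵥ u = e • u → e ≠ 0 ∧ b z⁻¹ *ᵥ u = e⁻¹ • u := by
    intro z _ e he
    have h1 : b z⁻¹ *ᵥ (b z *ᵥ u) = u := by
      rw [Matrix.mulVec_mulVec, hom_inv_mul, Matrix.one_mulVec]
    rw [he, Matrix.mulVec_smul] at h1
    have he0 : e ≠ 0 := by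
      rintro rfl
      rw [zero_smul] at h1
      exact hu h1.symm
    refine ⟨he0, ?_⟩
    calc b z⁻¹ *ᵥ u = e⁻¹ • (e • (b z⁻¹ *ᵥ u)) := by
          rw [smul_smul, inv_mul_cancel₀ he0, one_smul]
      _ = e⁻¹ • u := by rw [h1]
  obtain ⟨hc0, hcx⟩ := hinvx x hx c hc
  obtain ⟨hd0, hdy⟩ := hinvx y hy d hd
  set w := x * y * x⁻¹ * y⁻¹ with hw
  have hwN : w ∈ N := N.mul_mem (N.mul_mem (N.mul_mem hx hy) (N.inv_mem hx)) (N.inv_mem hy)
  have hwu : b w *ᵥ u = (1 : F) • u := by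
    rw [hw, map_mul, map_mul, map_mul, ← Matrix.mulVec_mulVec, hdy, Matrix.mulVec_smul,
      ← Matrix.mulVec_mulVec, hcx, Matrix.mulVec_smul, ← Matrix.mulVec_mulVec, hd,
      Matrix.mulVec_smul, hc]
    rw [smul_smul, smul_smul, smul_smul]
    congr 1
    field_simp
  have hw1 : b w = 1 := by
    apply unip_odd b N hspan L hL.pos hN w hwN
    exact sq_zero_of_eig_one (hN w hwN).1 (root_of_fixed hu hwu)
  have h7 : b w * (b y * b x) = b x * b y := by
    rw [hw, map_mul, map_mul, map_mul]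
    calc b x * b y * b x⁻¹ * b y⁻¹ * (b y * b x)
        = b x * b y * b x⁻¹ * (b y⁻¹ * b y) * b x := by simp only [mul_assoc]
      _ = b x * b y * (b x⁻¹ * b x) := by rw [hom_inv_mul, mul_one, mul_assoc]
      _ = b x * b y := by rw [hom_inv_mul, mul_one]
  rw [← h7, hw1, one_mul]

theorem comm_N [IsAlgClosed F] [N.Normal] (hspan : Submodule.span F (Set.range b) = ⊤) (L : ℕ)
    (hL : Odd L)
    (hN : ∀ x ∈ N, (b x).det = 1 ∧ ∃ μ : F, μ ^ L = 1 ∧ (b x).charpoly.IsRoot μ)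
    (x y : G) (hx : x ∈ N) (hy : y ∈ N) : b x * b y = b y * b x := by
  let c : N →* Matrix (Fin 2) (Fin 2) F := b.comp N.subtype
  by_cases hirr : Irred (fun z => c z)
  · exfalso
    have hspc : Submodule.span F (Set.range c) = ⊤ := span_top_of_irred c hirr
    let T : Set F := (fun μ : F => μ + 1 / μ) '' ((X ^ L - 1 : F[X]).rootSet F)
    have hT : T.Finite := (Polynomial.rootSet_finite _ _).image _
    have htr : ∀ z : N, (c z).trace ∈ T := by
      intro z
      obtain ⟨hd, μ, hμL, hμ⟩ := hN z.1 z.2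
      obtain ⟨hμ0, htrz⟩ := trace_eq_of_root hd one_ne_zero hμ
      refine ⟨μ, ?_, htrz.symm⟩
      rw [Polynomial.mem_rootSet]
      refine ⟨Polynomial.X_pow_sub_C_ne_zero hL.pos (1 : F), ?_⟩
      simp [hμL]
    have hfin := finite_of_traces c hspc T hT htr
    apply avg_contra c hspc L hL (fun z => (hN z.1 z.2).1)
      (fun z => pow_eq_one_N b N hspan L hL hN z.1 z.2)
    intro v hv
    by_contra hv0
    -- all elements of `N` are trivial, so `c` is not irreducible
    have htriv : ∀ z : N, c z = 1 := by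
      intro z
      apply unip_odd b N hspan L hL.pos hN z.1 z.2
      refine sq_zero_of_eig_one (hN z.1 z.2).1 (root_of_fixed hv0 ?_)
      rw [one_smul]
      exact hv z
    have h1 : (Matrix.single 0 1 1 : Matrix (Fin 2) (Fin 2) F) ∈
        Submodule.span F (Set.range c) := by rw [hspc]; trivial
    have h2 : Submodule.span F (Set.range c) ≤ Submodule.span F {(1 : Matrix (Fin 2) (Fin 2) F)} := by
      rw [Submodule.span_le]
      rintro _ ⟨z, rfl⟩
      rw [htriv z]
      exact Submodule.subset_span rfl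
    obtain ⟨e, he⟩ := Submodule.mem_span_singleton.mp (h2 h1)
    have := congrFun (congrFun he 0) 1
    simp at this
  · -- an invariant line
    unfold Irred at hirr
    push Not at hirr
    obtain ⟨U, hU, hU1, hU2⟩ := hirr inferInstance
    obtain ⟨u, huU, hu0⟩ := U.exists_mem_ne_zero_of_ne_bot hU1
    apply comm_of_line b N hspan L hL hN u hu0 _ x y hx hy
    intro z hz
    by_contra hcon
    push Not at hcon
    apply hU2
    have hzu : b z *ᵥ u ∈ U := hU ⟨z, hz⟩ u huU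
    -- `u` and `b z u` span everything
    have hli : LinearIndependent F ![u, b z *ᵥ u] := by
      rw [LinearIndependent.pair_iff' hu0]
      intro a ha
      exact hcon a ha.symm
    have hsp := hli.span_eq_top_of_card_eq_finrank (by simp)
    rw [eq_top_iff, ← hsp, Submodule.span_le]
    rintro _ ⟨i, rfl⟩
    fin_cases i
    · exact huU
    · exact hzu

/-- The odd kernel lemma. -/
theorem kernel_odd [IsAlgClosed F] [N.Normal] (hspan : Submodule.span F (Set.range b) = ⊤)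
    (hd : ¬ PermutesTwoLines (fun g => b g)) (L : ℕ) (hL : Odd L)
    (hN : ∀ x ∈ N, (b x).det = 1 ∧ ∃ μ : F, μ ^ L = 1 ∧ (b x).charpoly.IsRoot μ)
    (x : G) (hx : x ∈ N) : b x = 1 := by
  by_contra hne
  apply hd
  obtain ⟨μ, hμ0, -, hμν, hch⟩ := dist_eig hspan L hL hN x hx hne
  set ν := μ⁻¹ with hν
  have hrμ : (b x).charpoly.IsRoot μ := by rw [hch]; simp
  have hrν : (b x).charpoly.IsRoot ν := by rw [hch]; simp
  obtain ⟨u, hu0, hu⟩ := (isRoot_iff_exists _ _).mp hrμ
  obtain ⟨w, hw0, hw⟩ := (isRoot_iff_exists _ _).mp hrν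
  have hli : LinearIndependent F ![u, w] := by
    rw [LinearIndependent.pair_iff' hu0]
    intro a ha
    apply hw0
    have h1 : μ • w = ν • w := by
      rw [← hw, ← ha, Matrix.mulVec_smul, hu, smul_comm]
    have h2 : (μ - ν) • w = 0 := by rw [sub_smul, h1, sub_self]
    exact (smul_eq_zero.mp h2).resolve_left (sub_ne_zero.mpr hμν)
  have hpair : ∀ p q : F, p • u + q • w = 0 → p = 0 ∧ q = 0 :=
    LinearIndependent.pair_iff.mp hli
  have hbasis : ∀ v : Fin 2 → F, ∃ p q : F, v = p • u + q • w := by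
    intro v
    have hsp := hli.span_eq_top_of_card_eq_finrank (by simp)
    have hv : v ∈ Submodule.span F (Set.range ![u, w]) := by rw [hsp]; trivial
    rw [Matrix.range_cons, Matrix.range_cons, Matrix.range_empty, Set.union_empty,
      Set.singleton_union, Submodule.mem_span_pair] at hv
    obtain ⟨p, q, hpq⟩ := hv
    exact ⟨p, q, hpq.symm⟩
  refine ⟨u, w, hli, ?_⟩
  intro g
  show ((∃ c : F, b g *ᵥ u = c • u) ∧ ∃ c : F, b g *ᵥ w = c • w) ∨
    ((∃ c : F, b g *ᵥ u = c • w) ∧ ∃ c : F, b g *ᵥ w = c • u)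
  have hx' : g * x * g⁻¹ ∈ N := Subgroup.Normal.conj_mem inferInstance x hx g
  have hcom := comm_N b N hspan L hL hN x (g * x * g⁻¹) hx hx'
  set h' := b (g * x * g⁻¹) with hh'
  have hh'g : h' * b g = b g * b x := by
    rw [hh', ← map_mul, ← map_mul]
    congr 1
    group
  -- `h'` preserves the eigenlines of `b x`
  have hu' : ∃ c : F, h' *ᵥ u = c • u := by
    obtain ⟨p, q, hpq⟩ := hbasis (h' *ᵥ u)
    have h1 : b x *ᵥ (h' *ᵥ u) = μ • (h' *ᵥ u) := by
      rw [Matrix.mulVec_mulVec, hcom, ← Matrix.mulVec_mulVec, hu, Matrix.mulVec_smul]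
    rw [hpq, Matrix.mulVec_add, Matrix.mulVec_smul, Matrix.mulVec_smul, hu, hw] at h1
    have h2 : (0 : F) • u + (q * (ν - μ)) • w = 0 := by
      have h3 : (0 : F) • u + (q * (ν - μ)) • w =
        (p • μ • u + q • ν • w) - μ • (p • u + q • w) := by module
      rw [h3, h1, sub_self]
    have h4 := (hpair _ _ h2).2
    have hq : q = 0 := (mul_eq_zero.mp h4).resolve_right (sub_ne_zero.mpr hμν.symm)
    exact ⟨p, by rw [hpq, hq, zero_smul, add_zero]⟩
  have hw' : ∃ d : F, h' *ᵥ w = d • w := by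
    obtain ⟨p, q, hpq⟩ := hbasis (h' *ᵥ w)
    have h1 : b x *ᵥ (h' *ᵥ w) = ν • (h' *ᵥ w) := by
      rw [Matrix.mulVec_mulVec, hcom, ← Matrix.mulVec_mulVec, hw, Matrix.mulVec_smul]
    rw [hpq, Matrix.mulVec_add, Matrix.mulVec_smul, Matrix.mulVec_smul, hu, hw] at h1
    have h2 : (p * (μ - ν)) • u + (0 : F) • w = 0 := by
      have h3 : (p * (μ - ν)) • u + (0 : F) • w =
        (p • μ • u + q • ν • w) - ν • (p • u + q • w) := by module
      rw [h3, h1, sub_self]
    have h4 := (hpair _ _ h2).1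
    have hp : p = 0 := (mul_eq_zero.mp h4).resolve_right (sub_ne_zero.mpr hμν)
    exact ⟨q, by rw [hpq, hp, zero_smul, zero_add]⟩
  obtain ⟨c, hc⟩ := hu'
  obtain ⟨d, hd'⟩ := hw'
  -- `h'` has trace `μ + ν`, determinant one
  obtain ⟨p, q, hpq⟩ := hbasis (b g *ᵥ u)
  obtain ⟨p', q', hpq'⟩ := hbasis (b g *ᵥ w)
  have hgu : h' *ᵥ (b g *ᵥ u) = μ • (b g *ᵥ u) := by
    rw [Matrix.mulVec_mulVec, hh'g, ← Matrix.mulVec_mulVec, hu, Matrix.mulVec_smul]
  have hgw : h' *ᵥ (b g *ᵥ w) = ν • (b g *ᵥ w) := by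
    rw [Matrix.mulVec_mulVec, hh'g, ← Matrix.mulVec_mulVec, hw, Matrix.mulVec_smul]
  rw [hpq, Matrix.mulVec_add, Matrix.mulVec_smul, Matrix.mulVec_smul, hc, hd'] at hgu
  rw [hpq', Matrix.mulVec_add, Matrix.mulVec_smul, Matrix.mulVec_smul, hc, hd'] at hgw
  have k1 : (p * (c - μ)) • u + (q * (d - μ)) • w = 0 := by
    have h3 : (p * (c - μ)) • u + (q * (d - μ)) • w =
      (p • c • u + q • d • w) - μ • (p • u + q • w) := by module
    rw [h3, hgu, sub_self]
  have k2 : (p' * (c - ν)) • u + (q' * (d - ν)) • w = 0 := by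
    have h3 : (p' * (c - ν)) • u + (q' * (d - ν)) • w =
      (p' • c • u + q' • d • w) - ν • (p' • u + q' • w) := by module
    rw [h3, hgw, sub_self]
  obtain ⟨k1p, k1q⟩ := hpair _ _ k1
  obtain ⟨k2p, k2q⟩ := hpair _ _ k2
  -- `b g` is injective
  have hginj : ∀ v : Fin 2 → F, b g *ᵥ v = 0 → v = 0 := by
    intro v hv
    have h1 : b g⁻¹ *ᵥ (b g *ᵥ v) = v := by
      rw [Matrix.mulVec_mulVec, hom_inv_mul, Matrix.one_mulVec]
    rw [← h1, hv, Matrix.mulVec_zero]
  have hne1 : ¬ (p = 0 ∧ q = 0) := by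
    rintro ⟨rfl, rfl⟩
    apply hu0
    apply hginj
    rw [hpq, zero_smul, zero_smul, add_zero]
  have hne2 : ¬ (p' = 0 ∧ q' = 0) := by
    rintro ⟨rfl, rfl⟩
    apply hw0
    apply hginj
    rw [hpq', zero_smul, zero_smul, add_zero]
  -- `c = d` is impossible
  have hcd : c ≠ d := by
    intro hcd
    -- then `h' = c`, hence `b x = c`
    have h1 : c = μ := by
      by_cases hp : p = 0
      · have hq : q ≠ 0 := fun hq => hne1 ⟨hp, hq⟩
        rw [hcd]
        exact sub_eq_zero.mp ((mul_eq_zero.mp k1q).resolve_left hq)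
      · exact sub_eq_zero.mp ((mul_eq_zero.mp k1p).resolve_left hp)
    have h2 : c = ν := by
      by_cases hp : p' = 0
      · have hq : q' ≠ 0 := fun hq => hne2 ⟨hp, hq⟩
        rw [hcd]
        exact sub_eq_zero.mp ((mul_eq_zero.mp k2q).resolve_left hq)
      · exact sub_eq_zero.mp ((mul_eq_zero.mp k2p).resolve_left hp)
    exact hμν (h1.symm.trans h2)
  by_cases hp : p = 0
  · right
    have hq : q ≠ 0 := fun hq => hne1 ⟨hp, hq⟩
    have hdμ : d = μ := sub_eq_zero.mp ((mul_eq_zero.mp k1q).resolve_left hq)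
    have hq' : q' = 0 := by
      rcases mul_eq_zero.mp k2q with h | h
      · exact h
      · exact absurd (hdμ.symm.trans (sub_eq_zero.mp h)) hμν
    exact ⟨⟨q, by rw [hpq, hp, zero_smul, zero_add]⟩,
      ⟨p', by rw [hpq', hq', zero_smul, add_zero]⟩⟩
  · left
    have hcμ : c = μ := sub_eq_zero.mp ((mul_eq_zero.mp k1p).resolve_left hp)
    have hq : q = 0 := by
      rcases mul_eq_zero.mp k1q with h | h
      · exact h
      · exact absurd (hcμ.trans (sub_eq_zero.mp h).symm) hcd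
    have hp' : p' = 0 := by
      rcases mul_eq_zero.mp k2p with h | h
      · exact h
      · exact absurd (hcμ.symm.trans (sub_eq_zero.mp h)) hμν
    exact ⟨⟨p, by rw [hpq, hq, zero_smul, add_zero]⟩,
      ⟨q', by rw [hpq', hp', zero_smul, zero_add]⟩⟩

end ker

end Pool.Agent.GM
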