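import Mathlib
import Pool.Agent.helper1.GM.Crit
import Pool.Agent.helper1.GM.KernOdd

/-!
# The core theorem on odd powers

`V g` and `(ρ g) ^ L`, `L` odd, have a common eigenvalue for all `g`, and `ρ` is irreducible and
does not permute a pair of lines. Then the matrix coefficients of `ρ` belong to the algebra
generated by those of `V ⊕ det ρ` and its dual.
-/

namespace Pool.Agent.GM

open Matrix Polynomial Pool.Agent.GO

section core

variable {F : Type*} [Field F] {Γ : Type*} [Group Γ]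
variable {ι : Type*} [Fintype ι] [DecidableEq ι] (V : Γ →* Matrix ι ι F)
  (ρ : Γ →* Matrix (Fin 2) (Fin 2) F)

/-- The representation `V ⊕ det ρ`. -/
def withDet : Γ →* Matrix (ι ⊕ Fin 1) (ι ⊕ Fin 1) F where
  toFun g := Matrix.fromBlocks (V g) 0 0 (Matrix.of fun _ _ => (ρ g).det)
  map_one' := by
    rw [map_one, map_one, Matrix.det_one]
    have : (Matrix.of fun (_ _ : Fin 1) => (1 : F)) = 1 := by
      ext i j
      rw [Subsingleton.elim i j]
      simp
    rw [this, Matrix.fromBlocks_one]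
  map_mul' g h := by
    rw [map_mul, map_mul, Matrix.fromBlocks_multiply, Matrix.det_mul]
    have : (Matrix.of fun (_ _ : Fin 1) => (ρ g).det * (ρ h).det) =
        (Matrix.of fun (_ _ : Fin 1) => (ρ g).det) * (Matrix.of fun (_ _ : Fin 1) => (ρ h).det) := by
      ext i j
      simp [Matrix.mul_apply]
    rw [this]
    simp

theorem exists_root_pow [IsAlgClosed F] {κ : Type*} [Fintype κ] [DecidableEq κ]
    (Y : Matrix κ κ F) (L : ℕ) (hL : 0 < L) (ν : F) (h : (Y ^ L).charpoly.IsRoot ν) :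
    ∃ μ : F, μ ^ L = ν ∧ Y.charpoly.IsRoot μ := by
  have hp : (X ^ L - C ν : F[X]) ≠ 0 := Polynomial.X_pow_sub_C_ne_zero hL ν
  obtain ⟨μ, h1, h2⟩ := common_of_not_isUnit (Y := Y) hp (by
    rw [map_sub, map_pow, aeval_X, aeval_C]
    rw [Polynomial.IsRoot, Matrix.eval_charpoly] at h
    have h6 : Matrix.scalar κ ν - Y ^ L = -(Y ^ L - algebraMap F (Matrix κ κ F) ν) := by
      rw [neg_sub]
      rfl
    rw [h6, Matrix.det_neg] at h
    exact (mul_eq_zero.mp h).resolve_left (pow_ne_zero _ (neg_ne_zero.mpr one_ne_zero)))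
  refine ⟨μ, ?_, h2⟩
  simpa [sub_eq_zero] using h1

theorem withDet_inl (i j : ι) (g : Γ) : withDet V ρ g (Sum.inl i) (Sum.inl j) = V g i j := rfl

theorem withDet_inr (g : Γ) : withDet V ρ g (Sum.inr 0) (Sum.inr 0) = (ρ g).det := rfl

theorem entIn_withDet : EntIn (alg (withDet V ρ)) (fun g => V g) := fun i j =>
  coef_mem (withDet V ρ) (Sum.inl i) (Sum.inl j)

theorem entIn_withDet_inv : EntIn (alg (withDet V ρ)) (fun g => V g⁻¹) := fun i j =>
  coefInv_mem (withDet V ρ) (Sum.inl i) (Sum.inl j)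

theorem det_mem_withDet : (fun g => (ρ g).det) ∈ alg (withDet V ρ) :=
  coef_mem (withDet V ρ) (Sum.inr 0) (Sum.inr 0)

theorem trace_integral_odd [IsAlgClosed F] (L : ℕ) (hL : 0 < L)
    (h : ∀ g, CommonEigenvalue (V g) ((ρ g) ^ L)) :
    IsIntegral (alg (withDet V ρ)) (fun g => (ρ g).trace) := by
  have h1 : ∀ g, ∃ μ : F, (V g).charpoly.IsRoot (μ ^ L) ∧ (ρ g).charpoly.IsRoot μ := by
    intro g
    obtain ⟨ν, h1, h2⟩ := h g
    obtain ⟨μ, rfl, h3⟩ := exists_root_pow _ L hL ν h2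
    exact ⟨μ, h1, h3⟩
  choose μ h1 h2 using h1
  have h3 : ∀ g, μ g ≠ 0 ∧ (ρ g).trace = μ g + (ρ g).det / μ g := fun g =>
    trace_eq_of_root rfl (hom_det_ne ρ g) (h2 g)
  have i1 : IsIntegral (alg (withDet V ρ)) (fun g => μ g ^ L) :=
    root_integral _ (fun g => V g) (fun i j => int_of_mem (entIn_withDet V ρ i j)) _ h1
  have i2 : IsIntegral (alg (withDet V ρ)) μ := by
    have e : (fun g => μ g ^ L) = μ ^ L := rfl
    rw [e] at i1
    exact IsIntegral.of_pow hL i1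
  have i3 : IsIntegral (alg (withDet V ρ)) (fun g => (μ g ^ L)⁻¹) := by
    apply root_integral _ (fun g => V g⁻¹) (fun i j => int_of_mem (entIn_withDet_inv V ρ i j))
    intro g
    obtain ⟨v, hv, hv'⟩ := (isRoot_iff_exists _ _).mp (h1 g)
    rw [isRoot_iff_exists]
    refine ⟨v, hv, ?_⟩
    have h4 : V g⁻¹ *ᵥ (V g *ᵥ v) = v := by
      rw [Matrix.mulVec_mulVec, ← map_mul, inv_mul_cancel, map_one, Matrix.one_mulVec]
    rw [hv', Matrix.mulVec_smul] at h4
    have h5 : μ g ^ L ≠ 0 := pow_ne_zero _ (h3 g).1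
    calc V g⁻¹ *ᵥ v = (μ g ^ L)⁻¹ • (μ g ^ L • V g⁻¹ *ᵥ v) := by
          rw [smul_smul, inv_mul_cancel₀ h5, one_smul]
      _ = _ := by rw [h4]
  have i4 : IsIntegral (alg (withDet V ρ)) (fun g => (μ g)⁻¹) := by
    have e : (fun g => (μ g ^ L)⁻¹) = (fun g => (μ g)⁻¹) ^ L := by
      ext g
      simp [inv_pow]
    rw [e] at i3
    exact IsIntegral.of_pow hL i3
  have e : (fun g => (ρ g).trace) = μ + (fun g => (ρ g).det) * (fun g => (μ g)⁻¹) := by
    ext g
    simp only [Pi.add_apply, Pi.mul_apply]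
    rw [(h3 g).2, div_eq_mul_inv]
  rw [e]
  exact i2.add ((int_of_mem (det_mem_withDet V ρ)).mul i4)

/-- on the closure group: the determinant entry -/
theorem blk_det (x : chGroup (dsum (withDet V ρ) ρ)) :
    blkA (withDet V ρ) ρ x (Sum.inr 0) (Sum.inr 0) = (blkB (withDet V ρ) ρ x).det := by
  obtain ⟨M, φ, hφ⟩ := x
  let XR : Matrix (Fin 2) (Fin 2) (alg (dsum (withDet V ρ) ρ)) := (gen (dsum (withDet V ρ) ρ)).toBlocks₂₂
  have h0 : gen (dsum (withDet V ρ) ρ) (Sum.inl (Sum.inr 0)) (Sum.inl (Sum.inr 0)) = XR.det := by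
    apply Subtype.ext
    ext g
    show (ρ g).det = evG (dsum (withDet V ρ) ρ) g XR.det
    have h1 : evG (dsum (withDet V ρ) ρ) g XR.det =
        ((evG (dsum (withDet V ρ) ρ) g : alg (dsum (withDet V ρ) ρ) →+* F).mapMatrix XR).det := by
      rw [← RingHom.map_det]
      rfl
    rw [h1]
    congr 1
  have h1 : φ XR.det = ((φ : alg (dsum (withDet V ρ) ρ) →+* F).mapMatrix XR).det := by
    rw [← RingHom.map_det]
    rfl
  have h2 : (φ : alg (dsum (withDet V ρ) ρ) →+* F).mapMatrix XR = M.1.toBlocks₂₂ := by rw [← hφ]; rfl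
  show M.1 (Sum.inl (Sum.inr 0)) (Sum.inl (Sum.inr 0)) = (M.1.toBlocks₂₂).det
  rw [← h2, ← h1, ← h0, ← hφ]
  rfl

/-- on the closure group: common eigenvalues -/
theorem blk_common [IsAlgClosed F] (L : ℕ)
    (h : ∀ g, CommonEigenvalue (V g) ((ρ g) ^ L)) (x : chGroup (dsum (withDet V ρ) ρ)) :
    CommonEigenvalue (blkA (withDet V ρ) ρ x).toBlocks₁₁ ((blkB (withDet V ρ) ρ x) ^ L) := by
  obtain ⟨M, φ, hφ⟩ := x
  let XV : Matrix ι ι (alg (dsum (withDet V ρ) ρ)) := (gen (dsum (withDet V ρ) ρ)).toBlocks₁₁.toBlocks₁₁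
  let XR : Matrix (Fin 2) (Fin 2) (alg (dsum (withDet V ρ) ρ)) := (gen (dsum (withDet V ρ) ρ)).toBlocks₂₂
  have hpow : ∀ (f : alg (dsum (withDet V ρ) ρ) →+* F), (XR ^ L).map f = (XR.map f) ^ L := fun f =>
    map_pow f.mapMatrix XR L
  have h0 : (syl XV (XR ^ L)).det = 0 := by
    apply Subtype.ext
    ext g
    show evG (dsum (withDet V ρ) ρ) g (syl XV (XR ^ L)).det = 0
    have h1 := map_det_syl (evG (dsum (withDet V ρ) ρ) g : alg (dsum (withDet V ρ) ρ) →+* F) XV (XR ^ L)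
    have h2 : XV.map (evG (dsum (withDet V ρ) ρ) g : alg (dsum (withDet V ρ) ρ) →+* F) = V g := by ext i j; rfl
    have h3 : XR.map (evG (dsum (withDet V ρ) ρ) g : alg (dsum (withDet V ρ) ρ) →+* F) = ρ g := by ext i j; rfl
    rw [hpow, h2, h3, det_syl_of_common (h g)] at h1
    exact h1
  have h1 := map_det_syl (φ : alg (dsum (withDet V ρ) ρ) →+* F) XV (XR ^ L)
  rw [h0, map_zero, hpow] at h1
  have h2 : XV.map (φ : alg (dsum (withDet V ρ) ρ) →+* F) = M.1.toBlocks₁₁.toBlocks₁₁ := by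
    rw [← hφ]; rfl
  have h3 : XR.map (φ : alg (dsum (withDet V ρ) ρ) →+* F) = M.1.toBlocks₂₂ := by rw [← hφ]; rfl
  rw [h2, h3] at h1
  exact common_of_det_syl h1.symm

theorem ker_le_odd [IsAlgClosed F] [CharZero F] (hirr : Irred (fun g => ρ g))
    (hd : ¬ PermutesTwoLines (fun g => ρ g)) (L : ℕ) (hL : Odd L)
    (h : ∀ g, CommonEigenvalue (V g) ((ρ g) ^ L)) (x : chGroup (dsum (withDet V ρ) ρ))
    (hx : blkA (withDet V ρ) ρ x = 1) : blkB (withDet V ρ) ρ x = 1 := by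
  have hspan := span_top_of_irred ρ hirr
  have hspan' : Submodule.span F (Set.range (blkB (withDet V ρ) ρ)) = ⊤ := by
    rw [eq_top_iff, ← hspan]
    apply Submodule.span_mono
    rintro _ ⟨h, rfl⟩
    refine ⟨chUnit (dsum (withDet V ρ) ρ) (evG (dsum (withDet V ρ) ρ) h), ?_⟩
    ext i j
    rfl
  have hd' : ¬ PermutesTwoLines (fun g => blkB (withDet V ρ) ρ g) := by
    rintro ⟨u, w, hli, hall⟩
    apply hd
    refine ⟨u, w, hli, fun g => ?_⟩
    have h1 := hall (chUnit (dsum (withDet V ρ) ρ) (evG (dsum (withDet V ρ) ρ) g))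
    beta_reduce at h1
    have h2 : blkB (withDet V ρ) ρ (chUnit (dsum (withDet V ρ) ρ) (evG (dsum (withDet V ρ) ρ) g)) = ρ g := by ext i j; rfl
    rw [h2] at h1
    exact h1
  refine kernel_odd (blkB (withDet V ρ) ρ) (blkA (withDet V ρ) ρ).ker hspan' hd' L hL ?_ x hx
  intro y hy
  rw [MonoidHom.mem_ker] at hy
  constructor
  · rw [← blk_det, hy]
    simp
  · obtain ⟨ν, h1, h2⟩ := blk_common V ρ L h y
    rw [hy] at h1
    have h3 : (1 : Matrix (ι ⊕ Fin 1) (ι ⊕ Fin 1) F).toBlocks₁₁ = 1 := by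
      ext i j
      simp [Matrix.toBlocks₁₁, Matrix.one_apply]
    rw [h3, Matrix.charpoly_one] at h1
    have hν : ν = 1 := by
      simp only [Polynomial.IsRoot, eval_pow, eval_sub, eval_X, eval_one] at h1
      by_contra hne
      exact pow_ne_zero _ (sub_ne_zero.mpr hne) h1
    subst hν
    exact exists_root_pow _ L hL.pos 1 h2

/-- The core theorem. -/
theorem core [IsAlgClosed F] [CharZero F] (hirr : Irred (fun g => ρ g))
    (hd : ¬ PermutesTwoLines (fun g => ρ g)) (L : ℕ) (hL : Odd L)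
    (h : ∀ g, CommonEigenvalue (V g) ((ρ g) ^ L)) (i j : Fin 2) :
    (fun g => ρ g i j) ∈ alg (withDet V ρ) :=
  coef_mem_alg_of (withDet V ρ) ρ (span_top_of_irred ρ hirr)
    (trace_integral_odd V ρ L hL.pos h) (ker_le_odd V ρ hirr hd L hL h) i j

end core

end Pool.Agent.GM
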