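import Mathlib
import Pool.Agent.helper1.GM.OddCore

/-!
# Odd multiplicative relations between eigenvalues
-/

namespace Pool.Agent.GM

open Matrix Polynomial Pool.Agent.GO

section blk

variable {F : Type*} [Field F] {Γ : Type*} [Group Γ]
variable {K : Type*} [Fintype K] [DecidableEq K] {n : K → Type*} [∀ k, Fintype (n k)]
  [∀ k, DecidableEq (n k)] (T : ∀ k, Γ →* Matrix (n k) (n k) F)

/-- the direct sum of a finite family of representations -/
def blkHom : Γ →* Matrix (Σ k, n k) (Σ k, n k) F where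
  toFun g := Matrix.blockDiagonal' fun k => T k g
  map_one' := by
    have : (fun k => T k 1) = 1 := by
      ext1 k
      rw [map_one]
      rfl
    rw [this, Matrix.blockDiagonal'_one]
  map_mul' g h := by
    rw [← Matrix.blockDiagonal'_mul]
    congr 1
    ext1 k
    rw [map_mul]

theorem blkHom_root (g : Γ) (k : K) {μ : F} (h : (T k g).charpoly.IsRoot μ) :
    (blkHom T g).charpoly.IsRoot μ := by
  obtain ⟨v, hv, hv'⟩ := (isRoot_iff_exists _ _).mp h
  rw [isRoot_iff_exists]
  refine ⟨fun x => if h : x.1 = k then v (h ▸ x.2) else 0, ?_, ?_⟩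
  · intro h0
    apply hv
    ext i
    have := congrFun h0 ⟨k, i⟩
    simpa using this
  · ext ⟨l, i⟩
    show ∑ x : Σ k, n k, Matrix.blockDiagonal' (fun k => T k g) ⟨l, i⟩ x *
      (if h : x.1 = k then v (h ▸ x.2) else 0) = _
    rw [Fintype.sum_sigma, Finset.sum_eq_single l]
    · by_cases hlk : l = k
      · subst hlk
        have h1 := congrFun hv' i
        simp only [Matrix.blockDiagonal'_apply_eq, Pi.smul_apply, smul_eq_mul, dite_true]
        exact h1
      · simp [hlk]
    · intro l' _ hl'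
      apply Finset.sum_eq_zero
      intro j _
      rw [Matrix.blockDiagonal'_apply_ne (fun k => T k g) i j (Ne.symm hl'), zero_mul]
    · intro h1
      exact absurd (Finset.mem_univ l) h1

theorem blkHom_entry (P : (Γ → F) → Prop) (h0 : P 0)
    (hT : ∀ k p q, P fun g => T k g p q) (p q : Σ k, n k) : P fun g => blkHom T g p q := by
  obtain ⟨k, p⟩ := p
  obtain ⟨l, q⟩ := q
  by_cases hkl : k = l
  · subst hkl
    have : (fun g => blkHom T g ⟨k, p⟩ ⟨k, q⟩) = fun g => T k g p q := by
      ext g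
      exact Matrix.blockDiagonal'_apply_eq (fun k => T k g) k p q
    rw [this]
    exact hT k p q
  · have : (fun g => blkHom T g ⟨k, p⟩ ⟨l, q⟩) = 0 := by
      ext g
      exact Matrix.blockDiagonal'_apply_ne (fun k => T k g) p q hkl
    rw [this]
    exact h0

end blk

section tensors

variable {F : Type*} [Field F] {Γ : Type*} [Group Γ]
variable {m : Type*} [Fintype m] [DecidableEq m] (W : Γ →* Matrix m m F)

theorem tens_one (a b : ℕ) : tens W a b 1 = 1 := by
  ext p q
  simp only [tens, Matrix.of_apply, inv_one, map_one]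
  by_cases hpq : p = q
  · subst hpq
    simp
  · rw [Matrix.one_apply_ne hpq]
    have h1 : p.1 ≠ q.1 ∨ p.2 ≠ q.2 := by
      by_contra hcon
      push Not at hcon
      exact hpq (Prod.ext hcon.1 hcon.2)
    rcases h1 with h1 | h1
    · obtain ⟨k, hk⟩ := Function.ne_iff.mp h1
      rw [Finset.prod_eq_zero (f := fun k => (1 : Matrix m m F) (p.1 k) (q.1 k))
        (Finset.mem_univ k) (Matrix.one_apply_ne hk), zero_mul]
    · obtain ⟨k, hk⟩ := Function.ne_iff.mp h1
      rw [Finset.prod_eq_zero (f := fun k => (1 : Matrix m m F) (q.2 k) (p.2 k))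
        (Finset.mem_univ k) (Matrix.one_apply_ne hk.symm), mul_zero]

/-- the index set of the direct sum of the tensor constructions -/
def BTIdx (m : Type*) (B : ℕ) : Type _ :=
  Σ k : Fin (B + 1) × Fin (B + 1), (Fin k.1 → m) × (Fin k.2 → m)

instance (m : Type*) [Fintype m] (B : ℕ) : Fintype (BTIdx m B) :=
  inferInstanceAs (Fintype (Σ k : Fin (B + 1) × Fin (B + 1), (Fin k.1 → m) × (Fin k.2 → m)))

instance (m : Type*) [DecidableEq m] (B : ℕ) : DecidableEq (BTIdx m B) :=
  inferInstanceAs (DecidableEq (Σ k : Fin (B + 1) × Fin (B + 1), (Fin k.1 → m) × (Fin k.2 → m)))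

/-- the tensor construction as a representation -/
def tensHom (a b : ℕ) : Γ →* Matrix ((Fin a → m) × (Fin b → m)) ((Fin a → m) × (Fin b → m)) F where
  toFun g := tens W a b g
  map_one' := tens_one W a b
  map_mul' g h := tens_mul W a b g h

/-- the direct sum of the tensor constructions with at most `B` factors of each kind -/
def bigTens (B : ℕ) : Γ →* Matrix (BTIdx m B) (BTIdx m B) F :=
  blkHom fun k : Fin (B + 1) × Fin (B + 1) => tensHom W k.1 k.2

theorem inv_root (g : Γ) {μ : F} (h : (W g).charpoly.IsRoot μ) :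
    μ ≠ 0 ∧ (W g⁻¹).charpoly.IsRoot μ⁻¹ := by
  obtain ⟨v, hv, hv'⟩ := (isRoot_iff_exists _ _).mp h
  have h4 : W g⁻¹ *ᵥ (W g *ᵥ v) = v := by
    rw [Matrix.mulVec_mulVec, ← map_mul, inv_mul_cancel, map_one, Matrix.one_mulVec]
  rw [hv', Matrix.mulVec_smul] at h4
  have hμ : μ ≠ 0 := by
    rintro rfl
    rw [zero_smul] at h4
    exact hv h4.symm
  refine ⟨hμ, (isRoot_iff_exists _ _).mpr ⟨v, hv, ?_⟩⟩
  calc W g⁻¹ *ᵥ v = μ⁻¹ • (μ • W g⁻¹ *ᵥ v) := by
        rw [smul_smul, inv_mul_cancel₀ hμ, one_smul]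
    _ = _ := by rw [h4]

theorem tens_eig (g : Γ) (a b : ℕ) (x : Fin a → F) (y : Fin b → F)
    (hx : ∀ k, (W g).charpoly.IsRoot (x k)) (hy : ∀ k, (W g).charpoly.IsRoot (y k)) :
    (tens W a b g).charpoly.IsRoot ((∏ k, x k) * ∏ k, (y k)⁻¹) := by
  have h1 : ∀ k, ∃ v : m → F, v ≠ 0 ∧ W g *ᵥ v = x k • v := fun k =>
    (isRoot_iff_exists _ _).mp (hx k)
  have h2 : ∀ k, ∃ w : m → F, w ≠ 0 ∧ (W g⁻¹)ᵀ *ᵥ w = (y k)⁻¹ • w := by
    intro k
    apply (isRoot_iff_exists _ _).mp
    rw [Matrix.charpoly_transpose]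
    exact (inv_root W g (hy k)).2
  choose v hv hv' using h1
  choose w hw hw' using h2
  rw [isRoot_iff_exists]
  refine ⟨fun p => (∏ k, v k (p.1 k)) * ∏ k, w k (p.2 k), ?_, ?_⟩
  · choose i hi using fun k => Function.ne_iff.mp (hv k)
    choose j hj using fun k => Function.ne_iff.mp (hw k)
    intro h0
    have h3 := congrFun h0 (i, j)
    simp only [Pi.zero_apply, mul_eq_zero] at h3
    rcases h3 with h3 | h3
    · exact (Finset.prod_ne_zero_iff.mpr fun k _ => hi k) h3
    · exact (Finset.prod_ne_zero_iff.mpr fun k _ => hj k) h3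
  · ext p
    have h3 : ∀ k, ∑ j, W g (p.1 k) j * v k j = x k * v k (p.1 k) := fun k =>
      congrFun (hv' k) (p.1 k)
    have h4 : ∀ k, ∑ j, W g⁻¹ j (p.2 k) * w k j = (y k)⁻¹ * w k (p.2 k) := fun k =>
      congrFun (hw' k) (p.2 k)
    show ∑ q : (Fin a → m) × (Fin b → m), tens W a b g p q *
      ((∏ k, v k (q.1 k)) * ∏ k, w k (q.2 k)) = _
    have h5 : ∀ q : (Fin a → m) × (Fin b → m), tens W a b g p q *
      ((∏ k, v k (q.1 k)) * ∏ k, w k (q.2 k)) =
        (∏ k, W g (p.1 k) (q.1 k) * v k (q.1 k)) *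
          ∏ k, W g⁻¹ (q.2 k) (p.2 k) * w k (q.2 k) := by
      intro q
      simp only [tens, Matrix.of_apply]
      rw [Finset.prod_mul_distrib, Finset.prod_mul_distrib]
      ring
    rw [Finset.sum_congr rfl fun q _ => h5 q, Fintype.sum_prod_type]
    simp only
    rw [← Finset.sum_mul_sum, sum_prod_fin (fun k j => W g (p.1 k) j * v k j),
      sum_prod_fin (fun k j => W g⁻¹ j (p.2 k) * w k j),
      Finset.prod_congr rfl fun k _ => h3 k, Finset.prod_congr rfl fun k _ => h4 k,
      Finset.prod_mul_distrib, Finset.prod_mul_distrib]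
    simp only [Pi.smul_apply, smul_eq_mul]
    ring

theorem bigTens_eig (B : ℕ) (g : Γ) (k : Fin (B + 1) × Fin (B + 1)) {μ : F}
    (h : (tens W k.1 k.2 g).charpoly.IsRoot μ) : (bigTens W B g).charpoly.IsRoot μ :=
  blkHom_root (fun k : Fin (B + 1) × Fin (B + 1) => tensHom W k.1 k.2) g k h

omit [DecidableEq m] in
theorem exists_fin_of_multiset (s : Multiset F) :
    ∃ x : Fin (Multiset.card s) → F, (∀ k, x k ∈ s) ∧ ∏ k, x k = s.prod := by
  induction s using Quot.induction_on with
  | h l =>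
    refine ⟨l.get, fun k => ?_, ?_⟩
    · exact List.get_mem l k
    · show ∏ k : Fin l.length, l.get k = l.prod
      rw [← List.prod_ofFn, List.ofFn_get]

theorem bigTens_mon (B : ℕ) (g : Γ) (s t : Multiset F) (hs : Multiset.card s ≤ B)
    (ht : Multiset.card t ≤ B) (hs' : ∀ z ∈ s, (W g).charpoly.IsRoot z)
    (ht' : ∀ z ∈ t, (W g).charpoly.IsRoot z) :
    (bigTens W B g).charpoly.IsRoot (s.prod * t.prod⁻¹) := by
  obtain ⟨x, hx, hxp⟩ := exists_fin_of_multiset s
  obtain ⟨y, hy, hyp⟩ := exists_fin_of_multiset t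
  have h1 := tens_eig W g _ _ x y (fun k => hs' _ (hx k)) (fun k => ht' _ (hy k))
  rw [hxp, Finset.prod_inv_distrib, hyp] at h1
  exact bigTens_eig W B g (⟨Multiset.card s, Nat.lt_succ_of_le hs⟩,
    ⟨Multiset.card t, Nat.lt_succ_of_le ht⟩) h1

theorem tens_entry_mem (a b : ℕ) (p q : (Fin a → m) × (Fin b → m)) :
    (fun g => tens W a b g p q) ∈ alg W := by
  have h1 : (fun g => tens W a b g p q) =
      (∏ k, fun g => W g (p.1 k) (q.1 k)) * ∏ k, fun g => W g⁻¹ (q.2 k) (p.2 k) := by
    ext g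
    simp [tens, Finset.prod_apply]
  rw [h1]
  exact Subalgebra.mul_mem _ (Subalgebra.prod_mem _ fun k _ => coef_mem W _ _)
    (Subalgebra.prod_mem _ fun k _ => coefInv_mem W _ _)

theorem bigTens_entry_mem (B : ℕ) (p q) : (fun g => bigTens W B g p q) ∈ alg W :=
  blkHom_entry (fun k : Fin (B + 1) × Fin (B + 1) => tensHom W k.1 k.2) (fun f => f ∈ alg W)
    (Subalgebra.zero_mem _) (fun k p q => tens_entry_mem W k.1 k.2 p q) p q

end tensors

section red

variable {F : Type*} [Field F] {Γ : Type*} [Group Γ]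
variable {ι : Type*} [Fintype ι] [DecidableEq ι] (V : Γ →* Matrix ι ι F)
  (ρ : Γ →* Matrix (Fin 2) (Fin 2) F)

theorem alg_big_le (B : ℕ) :
    alg (withDet (bigTens (withDet V ρ) B) ρ) ≤ alg (withDet V ρ) := by
  have h1 : ∀ p q, (fun g => withDet (bigTens (withDet V ρ) B) ρ g p q) ∈ alg (withDet V ρ) := by
    rintro (p | p) (q | q)
    · exact bigTens_entry_mem (withDet V ρ) B p q
    · exact Subalgebra.zero_mem _
    · exact Subalgebra.zero_mem _
    · exact det_mem_withDet V ρ
  exact alg_le _ h1 fun p q => alg_iv _ (h1 p q)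

theorem root_withDet {g : Γ} {z : F} (h : (V g).charpoly.IsRoot z) :
    (withDet V ρ g).charpoly.IsRoot z := by
  obtain ⟨v, hv, hv'⟩ := (isRoot_iff_exists _ _).mp h
  rw [isRoot_iff_exists]
  refine ⟨Sum.elim v 0, ?_, ?_⟩
  · intro h0
    apply hv
    ext i
    exact congrFun h0 (Sum.inl i)
  · show Matrix.fromBlocks (V g) 0 0 _ *ᵥ _ = _
    rw [Matrix.fromBlocks_mulVec]
    ext i
    rcases i with i | i
    · simp [hv']
    · simp

theorem root_withDet_det (g : Γ) : (withDet V ρ g).charpoly.IsRoot (ρ g).det := by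
  rw [isRoot_iff_exists]
  refine ⟨Sum.elim 0 1, ?_, ?_⟩
  · intro h0
    have := congrFun h0 (Sum.inr 0)
    simp at this
  · show Matrix.fromBlocks (V g) 0 0 _ *ᵥ _ = _
    rw [Matrix.fromBlocks_mulVec]
    ext i
    rcases i with i | i
    · simp
    · simp [Matrix.mulVec, dotProduct]

/-- a common odd multiple of the odd numbers below `2 B` -/
def oddL (B : ℕ) : ℕ := ∏ i ∈ Finset.range B, (2 * i + 1)

theorem oddL_odd (B : ℕ) : Odd (oddL B) :=
  Finset.prod_induction _ Odd (fun _ _ => Odd.mul) odd_one fun i _ => ⟨i, rfl⟩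

theorem dvd_oddL {B m : ℕ} (hm : Odd m) (hmB : m ≤ 2 * B) : m ∣ oddL B := by
  obtain ⟨i, rfl⟩ := hm
  exact Finset.dvd_prod_of_mem (fun i => 2 * i + 1) (Finset.mem_range.mpr (by omega))

theorem pow_root {κ : Type*} [Fintype κ] [DecidableEq κ] {Y : Matrix κ κ F} {μ : F}
    (h : Y.charpoly.IsRoot μ) (L : ℕ) : (Y ^ L).charpoly.IsRoot (μ ^ L) := by
  obtain ⟨v, hv, hv'⟩ := (isRoot_iff_exists _ _).mp h
  rw [isRoot_iff_exists]
  refine ⟨v, hv, ?_⟩
  induction L with
  | zero => simp
  | succ k ih =>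
    rw [pow_succ, ← Matrix.mulVec_mulVec, hv', Matrix.mulVec_smul, ih, smul_smul, pow_succ,
      mul_comm]

theorem red_aux (B : ℕ) (g : Γ) (s t : Multiset F) (μ : F) (j : ℤ) (m : ℕ)
    (hs : Multiset.card s ≤ B) (ht : Multiset.card t ≤ B)
    (hs' : ∀ z ∈ s, (V g).charpoly.IsRoot z) (ht' : ∀ z ∈ t, (V g).charpoly.IsRoot z)
    (hj : |j| ≤ B) (hm : Odd m) (hmB : m ≤ 2 * B) (hμ : (ρ g).charpoly.IsRoot μ)
    (hrel : s.prod = t.prod * ((ρ g).det ^ j * μ ^ m)) :
    CommonEigenvalue (bigTens (withDet V ρ) (oddL B * (2 * B)) g) ((ρ g) ^ oddL B) := by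
  set D := (ρ g).det with hD
  have hD0 : D ≠ 0 := hom_det_ne ρ g
  set s' := s + Multiset.replicate (-j).toNat D with hs'_def
  set t' := t + Multiset.replicate j.toNat D with ht'_def
  have hj1 : (-j).toNat ≤ B := by
    have := abs_le.mp hj
    omega
  have hj2 : j.toNat ≤ B := by
    have := abs_le.mp hj
    omega
  have hcs : Multiset.card s' ≤ 2 * B := by
    rw [hs'_def, Multiset.card_add, Multiset.card_replicate]; omega
  have hct : Multiset.card t' ≤ 2 * B := by
    rw [ht'_def, Multiset.card_add, Multiset.card_replicate]; omega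
  have hrs : ∀ z ∈ s', (withDet V ρ g).charpoly.IsRoot z := by
    intro z hz
    rw [hs'_def, Multiset.mem_add] at hz
    rcases hz with hz | hz
    · exact root_withDet V ρ (hs' z hz)
    · rw [Multiset.eq_of_mem_replicate hz]
      exact root_withDet_det V ρ g
  have hrt : ∀ z ∈ t', (withDet V ρ g).charpoly.IsRoot z := by
    intro z hz
    rw [ht'_def, Multiset.mem_add] at hz
    rcases hz with hz | hz
    · exact root_withDet V ρ (ht' z hz)
    · rw [Multiset.eq_of_mem_replicate hz]
      exact root_withDet_det V ρ g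
  have ht0 : t'.prod ≠ 0 := by
    intro h0
    have h1 : (0 : F) ∈ t' := Multiset.prod_eq_zero_iff.mp h0
    exact (inv_root (withDet V ρ) g (hrt 0 h1)).1 rfl
  have hDj : D ^ j * D ^ (-j).toNat = D ^ j.toNat := by
    rw [← zpow_natCast, ← zpow_natCast, ← zpow_add₀ hD0]
    congr 1
    omega
  have hμm : μ ^ m = s'.prod * t'.prod⁻¹ := by
    rw [eq_mul_inv_iff_mul_eq₀ ht0, hs'_def, ht'_def, Multiset.prod_add, Multiset.prod_add,
      Multiset.prod_replicate, Multiset.prod_replicate, hrel, ← hDj]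
    ring
  obtain ⟨e, he⟩ := dvd_oddL hm hmB
  have heL : e ≤ oddL B := by
    rw [he]
    exact Nat.le_mul_of_pos_left e hm.pos
  have hμL : μ ^ oddL B = (e • s').prod * (e • t').prod⁻¹ := by
    rw [he, pow_mul, hμm, mul_pow, Multiset.prod_nsmul, Multiset.prod_nsmul, inv_pow]
  refine ⟨μ ^ oddL B, ?_, pow_root hμ _⟩
  rw [hμL]
  apply bigTens_mon
  · rw [Multiset.card_nsmul]
    exact Nat.mul_le_mul heL hcs
  · rw [Multiset.card_nsmul]
    exact Nat.mul_le_mul heL hct
  · intro z hz
    exact hrs z (Multiset.mem_of_mem_nsmul hz)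
  · intro z hz
    exact hrt z (Multiset.mem_of_mem_nsmul hz)

end red

/-- An odd multiplicative relation of size at most `B` between the roots of `P` and the two roots
`α`, `β` of `Q`: a product of at most `B` roots of `P` equals a product of at most `B` roots of
`P` times `α ^ a * β ^ b`, where the exponents are at most `B` in absolute value and `a - b` is
odd. -/
def OddRelation {F : Type*} [Field F] (B : ℕ) (P Q : F[X]) : Prop :=
  ∃ (s t : Multiset F) (α β : F) (a b : ℤ),
    Multiset.card s ≤ B ∧ Multiset.card t ≤ B ∧ |a| ≤ B ∧ |b| ≤ B ∧ Odd (a - b) ∧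
    (∀ z ∈ s, P.IsRoot z) ∧ (∀ z ∈ t, P.IsRoot z) ∧
    Q = (X - C α) * (X - C β) ∧ s.prod = t.prod * (α ^ a * β ^ b)

section red2

variable {F : Type*} [Field F] {Γ : Type*} [Group Γ]
variable {ι : Type*} [Fintype ι] [DecidableEq ι] (V : Γ →* Matrix ι ι F)
  (ρ : Γ →* Matrix (Fin 2) (Fin 2) F)

theorem det_of_charpoly {Y : Matrix (Fin 2) (Fin 2) F} {α β : F}
    (h : Y.charpoly = (X - C α) * (X - C β)) : Y.det = α * β := by
  have h1 := congrArg (Polynomial.eval 0) h
  rw [Matrix.charpoly_fin_two] at h1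
  simpa using h1

theorem red (B : ℕ) (g : Γ) (h : OddRelation B (V g).charpoly (ρ g).charpoly) :
    CommonEigenvalue (bigTens (withDet V ρ) (oddL B * (2 * B)) g) ((ρ g) ^ oddL B) := by
  obtain ⟨s, t, α, β, a, b, hs, ht, ha, hb, hodd, hs', ht', hQ, hrel⟩ := h
  have hdet := det_of_charpoly hQ
  have hD0 : (ρ g).det ≠ 0 := hom_det_ne ρ g
  have hα : α ≠ 0 := by rintro rfl; exact hD0 (by rw [hdet, zero_mul])
  have hβ : β ≠ 0 := by rintro rfl; exact hD0 (by rw [hdet, mul_zero])
  have hrα : (ρ g).charpoly.IsRoot α := by rw [hQ]; simp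
  have hrβ : (ρ g).charpoly.IsRoot β := by rw [hQ]; simp
  have ha' := abs_le.mp ha
  have hb' := abs_le.mp hb
  rcases le_total b a with hab | hab
  · refine red_aux V ρ B g s t α b (a - b).toNat hs ht hs' ht' hb ?_ (by omega) hrα ?_
    · obtain ⟨k, hk⟩ := hodd
      exact ⟨k.toNat, by omega⟩
    · have e : α ^ a * β ^ b = (ρ g).det ^ b * α ^ (a - b).toNat := by
        rw [hdet, mul_zpow, ← zpow_natCast, Int.toNat_of_nonneg (by omega), zpow_sub₀ hα]
        field_simp
      rw [← e]
      exact hrel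
  · refine red_aux V ρ B g s t β a (b - a).toNat hs ht hs' ht' ha ?_ (by omega) hrβ ?_
    · obtain ⟨k, hk⟩ := hodd
      exact ⟨(-k - 1).toNat, by omega⟩
    · have e : α ^ a * β ^ b = (ρ g).det ^ a * β ^ (b - a).toNat := by
        rw [hdet, mul_zpow, ← zpow_natCast, Int.toNat_of_nonneg (by omega), zpow_sub₀ hβ]
        field_simp
      rw [← e]
      exact hrel

/-- The algebraic form: an odd relation at every element of the group. -/
theorem odd_group [IsAlgClosed F] [CharZero F] (hirr : Irred (fun g => ρ g))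
    (hd : ¬ PermutesTwoLines (fun g => ρ g)) (B : ℕ)
    (h : ∀ g, CommonEigenvalue (bigTens (withDet V ρ) (oddL B * (2 * B)) g)
      ((ρ g) ^ oddL B)) :
    ∃ a b : ℕ, IsSubquotient (fun g => ρ g) (tens (withDet V ρ) a b) := by
  apply subquot_of_coef (withDet V ρ) ρ hirr
  intro i j
  exact alg_big_le V ρ (oddL B * (2 * B)) (core (bigTens (withDet V ρ) (oddL B * (2 * B))) ρ
    hirr hd (oddL B) (oddL_odd B) h i j)

theorem continuous_withDet [TopologicalSpace F] [IsTopologicalRing F] [TopologicalSpace Γ]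
    (hV : Continuous V) (hρ : Continuous ρ) : Continuous (withDet V ρ) := by
  show Continuous fun g => Matrix.fromBlocks (V g) 0 0 (Matrix.of fun _ _ => (ρ g).det)
  apply Continuous.matrix_fromBlocks hV continuous_const continuous_const
  exact continuous_matrix fun _ _ => hρ.matrix_det

theorem continuous_bigTens {m : Type*} [Fintype m] [DecidableEq m] [TopologicalSpace F]
    [IsTopologicalRing F] [TopologicalSpace Γ] [IsTopologicalGroup Γ] (W : Γ →* Matrix m m F)
    (hW : Continuous W) (B : ℕ) : Continuous (bigTens W B) := by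
  have hWi : Continuous fun g => W g⁻¹ := hW.comp continuous_inv
  apply continuous_matrix
  intro p q
  refine blkHom_entry (fun k : Fin (B + 1) × Fin (B + 1) => tensHom W k.1 k.2)
    (fun f => Continuous f) continuous_const ?_ p q
  intro k p q
  show Continuous fun g => (∏ i, W g (p.1 i) (q.1 i)) * ∏ i, W g⁻¹ (q.2 i) (p.2 i)
  exact (continuous_finsetProd _ fun i _ => hW.matrix_elem _ _).mul
    (continuous_finsetProd _ fun i _ => hWi.matrix_elem _ _)

/-- The topological form: an odd relation at a dense set of elements. -/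
theorem odd_dense [IsAlgClosed F] [CharZero F] [TopologicalSpace F] [IsTopologicalRing F]
    [T2Space F] [TopologicalSpace Γ] [IsTopologicalGroup Γ]
    (hV : Continuous V) (hρ : Continuous ρ) (hirr : Irred (fun g => ρ g))
    (hd : ¬ PermutesTwoLines (fun g => ρ g)) (B : ℕ) (S : Set Γ) (hS : Dense S)
    (h : ∀ g ∈ S, OddRelation B (V g).charpoly (ρ g).charpoly) :
    ∃ a b : ℕ, IsSubquotient (fun g => ρ g) (tens (withDet V ρ) a b) := by
  apply odd_group V ρ hirr hd B
  intro g
  apply common_of_det_syl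
  have hW := continuous_bigTens (withDet V ρ) (continuous_withDet V ρ hV hρ) (oddL B * (2 * B))
  have hcont : Continuous (fun g => (syl (bigTens (withDet V ρ) (oddL B * (2 * B)) g)
      ((ρ g) ^ oddL B)).det) := by
    apply Continuous.matrix_det
    apply continuous_matrix
    intro p q
    simp only [syl, Matrix.of_apply]
    apply Continuous.sub
    · exact (hW.matrix_elem p.1 q.1).mul continuous_const
    · exact continuous_const.mul ((hρ.pow (oddL B)).matrix_elem q.2 p.2)
  have hcl : IsClosed {g | (syl (bigTens (withDet V ρ) (oddL B * (2 * B)) g)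
      ((ρ g) ^ oddL B)).det = 0} := isClosed_singleton.preimage hcont
  have hsub : S ⊆ {g | (syl (bigTens (withDet V ρ) (oddL B * (2 * B)) g)
      ((ρ g) ^ oddL B)).det = 0} := fun g hg => det_syl_of_common (red V ρ B g (h g hg))
  exact hcl.closure_subset_iff.mpr hsub (hS g)

end red2

end Pool.Agent.GM
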