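import Mathlib
import Pool.Agent.helper1.GM.OddRed

/-!
# Odd relations do not depend on the embedding of the field of coefficients
-/

namespace Pool.Agent.GM

open Matrix Polynomial Pool.Agent.GO

section transfer

theorem roots_map_prod {K F : Type*} [Field K] [Field F] (φ : K →+* F) (s : Multiset K) :
    (s.map φ).prod = φ s.prod := (map_multiset_prod φ s).symm

/-- An odd relation between the images of `P` and `Q` in one field gives one in every
algebraically closed field. -/
theorem oddRelation_transfer {E F₀ F : Type*} [Field E] [Field F₀] [Field F] [IsAlgClosed F]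
    (ι₀ : E →+* F₀) (ι : E →+* F) (B : ℕ) (P Q : E[X]) (hP : P ≠ 0)
    (h : OddRelation B (P.map ι₀) (Q.map ι₀)) : OddRelation B (P.map ι) (Q.map ι) := by
  obtain ⟨s, t, α, β, a, b, hs, ht, ha, hb, hodd, hs', ht', hQ, hrel⟩ := h
  letI : Algebra E F₀ := ι₀.toAlgebra
  letI : Algebra E F := ι.toAlgebra
  have hQne : Q ≠ 0 := by
    rintro rfl
    rw [Polynomial.map_zero] at hQ
    exact mul_ne_zero (X_sub_C_ne_zero α) (X_sub_C_ne_zero β) hQ.symm
  let K := algebraicClosure E F₀
  have hmem : ∀ (R : E[X]) (_ : R ≠ 0) (z : F₀), (R.map ι₀).IsRoot z → z ∈ K := by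
    intro R hR z hz
    rw [mem_algebraicClosure_iff]
    refine ⟨R, hR, ?_⟩
    rw [Polynomial.aeval_def, ← Polynomial.eval_map]
    exact hz
  let φ : K →ₐ[E] F := IsAlgClosed.lift
  have hφ : ∀ (R : E[X]) (z : K), (R.map ι₀).IsRoot z.1 → (R.map ι).IsRoot (φ z) := by
    intro R z hz
    have h1 : aeval z R = 0 := by
      apply Subtype.ext
      have h2 : aeval z.1 R = 0 := by
        rw [Polynomial.aeval_def, ← Polynomial.eval_map]
        exact hz
      exact ((Polynomial.aeval_algebraMap_apply F₀ z R).symm.trans h2 : _)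
    have h3 : aeval (φ z) R = 0 := by
      rw [Polynomial.aeval_algHom_apply, h1, map_zero]
    rw [Polynomial.aeval_def, ← Polynomial.eval_map] at h3
    exact h3
  have hsK : ∀ z ∈ s, z ∈ K := fun z hz => hmem P hP z (hs' z hz)
  have htK : ∀ z ∈ t, z ∈ K := fun z hz => hmem P hP z (ht' z hz)
  have hrα : (Q.map ι₀).IsRoot α := by rw [hQ]; simp
  have hrβ : (Q.map ι₀).IsRoot β := by rw [hQ]; simp
  have hαK : α ∈ K := hmem Q hQne α hrα
  have hβK : β ∈ K := hmem Q hQne β hrβ
  lift s to Multiset K using hsK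
  lift t to Multiset K using htK
  lift α to K using hαK
  lift β to K using hβK
  have hQK : Q.map (algebraMap E K) = (X - C α) * (X - C β) := by
    have hinj : Function.Injective (algebraMap K F₀) := (algebraMap K F₀).injective
    apply Polynomial.map_injective (algebraMap K F₀) hinj
    rw [Polynomial.map_map, ← IsScalarTower.algebraMap_eq E K F₀]
    simp only [Polynomial.map_mul, Polynomial.map_sub, Polynomial.map_X, Polynomial.map_C]
    exact hQ
  have hrelK : s.prod = t.prod * (α ^ a * β ^ b) := by
    apply (algebraMap K F₀).injective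
    rw [map_mul, map_mul, map_zpow₀, map_zpow₀, ← roots_map_prod, ← roots_map_prod]
    exact hrel
  refine ⟨s.map φ, t.map φ, φ α, φ β, a, b, ?_, ?_, ha, hb, hodd, ?_, ?_, ?_, ?_⟩
  · rw [Multiset.card_map]
    simpa using hs
  · rw [Multiset.card_map]
    simpa using ht
  · intro z hz
    obtain ⟨y, hy, rfl⟩ := Multiset.mem_map.mp hz
    exact hφ P y (hs' _ (Multiset.mem_map_of_mem _ hy))
  · intro z hz
    obtain ⟨y, hy, rfl⟩ := Multiset.mem_map.mp hz
    exact hφ P y (ht' _ (Multiset.mem_map_of_mem _ hy))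
  · have h1 := congrArg (Polynomial.map (φ : K →+* F)) hQK
    rw [Polynomial.map_map] at h1
    have h2 : (φ : K →+* F).comp (algebraMap E K) = ι := φ.comp_algebraMap
    rw [h2] at h1
    rw [h1]
    simp
  · have h1 := congrArg φ hrelK
    rw [map_mul, map_mul, map_zpow₀, map_zpow₀] at h1
    have h2 : (s.map φ).prod = φ s.prod := roots_map_prod (φ : K →+* F) s
    have h3 : (t.map φ).prod = φ t.prod := roots_map_prod (φ : K →+* F) t
    rw [h2, h3, h1]

end transfer

end Pool.Agent.GM
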